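import Pool.Agent.Helper49.EX.FI

/-!
# MP_2857a5_co : module AIS, assembly in the case of many sources
-/

set_option autoImplicit false

open Finset
open scoped Classical

namespace OT

noncomputable section

/-! ### Injections -/

lemma ais_inj {α β : Type} (f₀ : α → β) (S : Finset α) (T : Finset β) (h : S.card ≤ T.card) :
    ∃ f : α → β, Set.InjOn f S ∧ ∀ x ∈ S, f x ∈ T := by
  obtain ⟨T', hT', hc⟩ := Finset.exists_subset_card_eq h
  let e : S ≃ T' := Finset.equivOfCardEq hc.symm
  refine ⟨fun x => if h : x ∈ S then (e ⟨x, h⟩ : β) else f₀ x, ?_, ?_⟩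
  · intro x hx y hy hxy
    rw [Finset.mem_coe] at hx hy
    simp only [hx, hy, dif_pos] at hxy
    have := e.injective (Subtype.ext hxy)
    exact congrArg Subtype.val this
  · intro x hx
    simp only [hx, dif_pos]
    exact hT' (e ⟨x, hx⟩).2

lemma ais_bij {α β : Type} [DecidableEq β] (f₀ : α → β) (S : Finset α) (T : Finset β) (h : S.card = T.card) :
    ∃ f : α → β, Set.InjOn f S ∧ S.image f = T := by
  obtain ⟨f, hf, hfT⟩ := ais_inj f₀ S T h.le
  refine ⟨f, hf, ?_⟩
  apply Finset.eq_of_subset_of_card_le
  · intro y hy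
    obtain ⟨x, hx, rfl⟩ := Finset.mem_image.1 hy
    exact hfT x hx
  · rw [Finset.card_image_of_injOn hf, h]

lemma ais_glue {α β : Type} [DecidableEq α] [DecidableEq β] (S₁ S₂ : Finset α) (f₁ f₂ : α → β) (h₁ : Set.InjOn f₁ S₁)
    (h₂ : Set.InjOn f₂ S₂) (hd : Disjoint (S₁.image f₁) (S₂.image f₂)) (hS : Disjoint S₁ S₂) :
    ∃ f : α → β, (∀ x ∈ S₁, f x = f₁ x) ∧ (∀ x ∈ S₂, f x = f₂ x) ∧
      Set.InjOn f (S₁ ∪ S₂ : Finset α) ∧
      (S₁ ∪ S₂).image f = S₁.image f₁ ∪ S₂.image f₂ := by
  have e1 : ∀ x ∈ S₁, (if x ∈ S₁ then f₁ x else f₂ x) = f₁ x := fun x hx => if_pos hx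
  have e2 : ∀ x ∈ S₂, (if x ∈ S₁ then f₁ x else f₂ x) = f₂ x := fun x hx =>
    if_neg (fun h => Finset.disjoint_left.1 hS h hx)
  refine ⟨fun x => if x ∈ S₁ then f₁ x else f₂ x, e1, e2, ?_, ?_⟩
  · intro x hx y hy hxy
    rw [Finset.mem_coe, Finset.mem_union] at hx hy
    simp only at hxy
    rcases hx with hx | hx <;> rcases hy with hy | hy
    · rw [e1 x hx, e1 y hy] at hxy
      exact h₁ hx hy hxy
    · rw [e1 x hx, e2 y hy] at hxy
      exact absurd (Finset.mem_image_of_mem f₂ hy)
        (Finset.disjoint_left.1 hd (hxy ▸ Finset.mem_image_of_mem f₁ hx))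
    · rw [e2 x hx, e1 y hy] at hxy
      exact absurd (Finset.mem_image_of_mem f₂ hx)
        (Finset.disjoint_left.1 hd (hxy ▸ Finset.mem_image_of_mem f₁ hy))
    · rw [e2 x hx, e2 y hy] at hxy
      exact h₂ hx hy hxy
  · rw [Finset.image_union]
    congr 1
    · exact Finset.image_congr fun x hx => e1 x hx
    · exact Finset.image_congr fun x hx => e2 x hx

lemma ais_arc_nb {n : ℕ} {T : PTree n} {x y : Fin n} (h : T.Arc x y) : T.Nb x y := by
  rcases h with ⟨h1, h2, _⟩ | ⟨h1, h2, _⟩
  · exact Or.inl ⟨h1, h2⟩
  · exact Or.inr ⟨h1, h2⟩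

theorem asmIS {n : ℕ} (Δ : ℕ) (T : PTree n) (hT : T.Deg Δ) {V : Type} [Fintype V]
    (hV : Fintype.card V = n) (D : V → V → Prop) (B C X G K : Finset V) (dl : V → Bool)
    (lv : V → Fin (Δ + 1) → V) (kd : Bool → Bool → Bool) (F : Bool → Finset V) (U : Finset V)
    (γ κ : ℝ) (k : ℕ) (hHost : HostIS D Δ B C X G K dl lv kd F U γ κ (8 * k)) :
    ∃ m : ℤ, |(m : ℝ)| ≤ κ * (n : ℝ) + 8 * k ∧
      ∀ (side : Fin n → Bool) (Tc : Bool → Finset (Fin n)) (M : Finset (Fin n)),
      TreeIS T kd side Tc M → (∀ δ, (Tc δ).card ≤ k) →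
      |2 * ((univ.filter fun v => side v = true).card : ℤ) - n - m| ≤ k →
      (∀ l, 2 * κ * (n : ℝ) + 8 * k ≤ ((M.filter fun v => side v = l).card : ℝ)) →
      ∃ (Sp : Finset (Fin n)) (ψ : Fin n → V) (Lf : Finset (Fin n)) (lam : Fin n → V),
        (Sp.card : ℝ) ≤ 2 * κ * (n : ℝ) + 10 * k ∧
        MetData D T (sd B C) (fun k l => k = l) γ Sp ψ side Lf lam := by
  have hhalf := hHost.half
  have hhalf' := hHost.half'
  rw [hV] at hhalf hhalf'
  have hhalfR : (n : ℝ) ≤ 2 * (X.card : ℝ) := by exact_mod_cast hhalf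
  refine ⟨2 * (X.card : ℤ) - n - 6 * k, ?_, ?_⟩
  · push_cast
    have hk : (0 : ℝ) ≤ k := by positivity
    rw [abs_le]
    constructor <;> linarith
  intro side Tc M hTree hTck hbal hM
  set N : ℕ := (univ.filter fun v => side v = true).card with hN
  have hbal' := abs_le.1 hbal
  -- the vertices used for the cuts
  have hdisTc := hTree.tc.disj
  let f₀ : Fin n → V := (Fintype.equivFinOfCardEq hV).symm
  obtain ⟨f₁, hf₁, hf₁F⟩ := ais_inj f₀ (Tc true) (F true)
    ((hTck true).trans (by have := hHost.cuts.card true; omega))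
  obtain ⟨f₂, hf₂, hf₂F⟩ := ais_inj f₀ (Tc false) (F false)
    ((hTck false).trans (by have := hHost.cuts.card false; omega))
  have himF₁ : (Tc true).image f₁ ⊆ F true := by
    intro y hy
    obtain ⟨x, hx, rfl⟩ := Finset.mem_image.1 hy
    exact hf₁F x hx
  have himF₂ : (Tc false).image f₂ ⊆ F false := by
    intro y hy
    obtain ⟨x, hx, rfl⟩ := Finset.mem_image.1 hy
    exact hf₂F x hx
  obtain ⟨f, hfe₁, hfe₂, hfinj, hfim⟩ := ais_glue (Tc true) (Tc false) f₁ f₂ hf₁ hf₂
    (Finset.disjoint_of_subset_left himF₁ (Finset.disjoint_of_subset_right himF₂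
      hHost.cuts.disj)) hdisTc
  set TT : Finset (Fin n) := Tc true ∪ Tc false with hTT
  set Φ : Finset V := TT.image f with hΦ
  have hTTcard : TT.card ≤ 2 * k := by
    have h1 := Finset.card_union_le (Tc true) (Tc false)
    rw [← hTT] at h1
    have h2 := hTck true
    have h3 := hTck false
    omega
  have hΦF : ∀ v ∈ Φ, v ∈ F true ∨ v ∈ F false := by
    intro v hv
    rw [hfim, Finset.mem_union] at hv
    rcases hv with h | h
    · exact Or.inl (himF₁ h)
    · exact Or.inr (himF₂ h)
  have hΦcard : Φ.card = TT.card := Finset.card_image_of_injOn hfinj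
  have hUΦ : Disjoint U Φ := by
    rw [Finset.disjoint_left]
    intro v hv hv'
    rcases hΦF v hv' with h | h
    · exact Finset.disjoint_left.1 (hHost.UF true) hv h
    · exact Finset.disjoint_left.1 (hHost.UF false) hv h
  -- the number of unit adjusters
  set tT : ℕ := (TT.filter fun x => side x = true).card with htT
  have htTle : tT ≤ 2 * k := (Finset.card_filter_le _ _).trans hTTcard
  have hXΦ : (X ∩ Φ).card ≤ 2 * k :=
    (Finset.card_le_card Finset.inter_subset_right).trans (hΦcard.le.trans hTTcard)
  obtain ⟨mU, hmU⟩ : ∃ mU : ℕ, mU + (X ∩ Φ).card + N = X.card + tT :=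
    ⟨X.card + tT - N - (X ∩ Φ).card, by omega⟩
  have hmU6 : mU ≤ 6 * k := by omega
  obtain ⟨U', hU'U, hU'card⟩ := Finset.exists_subset_card_eq
    (show mU ≤ U.card by have := hHost.cardU; omega)
  have hU'X : U' ⊆ X := hU'U.trans hHost.UX
  have hU'Φ : Disjoint U' Φ := Finset.disjoint_of_subset_left hU'U hUΦ
  set H1 : Finset V := X \ (B ∪ Φ ∪ U') with hH1
  set H0 : Finset V := univ \ (X ∪ C ∪ Φ) with hH0
  have hBC := hHost.tc.disj
  have hBX := hHost.BX
  have hCX := hHost.CX
  have hH10 : Disjoint H1 H0 := by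
    rw [Finset.disjoint_left]
    intro v hv hv'
    rw [hH1, Finset.mem_sdiff] at hv
    rw [hH0, Finset.mem_sdiff, Finset.mem_union, Finset.mem_union] at hv'
    exact hv'.2 (Or.inl (Or.inl hv.1))
  have hH1B : ∀ v ∈ H1, v ∉ B ∧ v ∉ C ∧ v ∈ X := by
    intro v hv
    rw [hH1, Finset.mem_sdiff, Finset.mem_union, Finset.mem_union] at hv
    exact ⟨fun h => hv.2 (Or.inl (Or.inl h)), fun h => Finset.disjoint_left.1 hCX h hv.1, hv.1⟩
  have hH0B : ∀ v ∈ H0, v ∉ B ∧ v ∉ C ∧ v ∉ X := by
    intro v hv
    rw [hH0, Finset.mem_sdiff, Finset.mem_union, Finset.mem_union] at hv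
    exact ⟨fun h => hv.2 (Or.inl (Or.inl (hBX h))), fun h => hv.2 (Or.inl (Or.inr h)),
      fun h => hv.2 (Or.inl (Or.inl h))⟩
  have hHcard : ((H1.card : ℝ) + H0.card) ≤ 2 * κ * n := by
    have h1 : H1.card + H0.card + B.card + C.card ≤ n := by
      rw [← hV, ← Finset.card_univ, ← Finset.card_union_of_disjoint hH10,
        ← Finset.card_union_of_disjoint, ← Finset.card_union_of_disjoint]
      · exact Finset.card_le_card (Finset.subset_univ _)
      · rw [Finset.disjoint_left]
        intro v hv hv'
        rw [Finset.mem_union, Finset.mem_union] at hv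
        rcases hv with (h | h) | h
        · exact (hH1B v h).2.1 hv'
        · exact (hH0B v h).2.1 hv'
        · exact Finset.disjoint_left.1 hBC h hv'
      · rw [Finset.disjoint_left]
        intro v hv hv'
        rw [Finset.mem_union] at hv
        rcases hv with h | h
        · exact (hH1B v h).1 hv'
        · exact (hH0B v h).1 hv'
    have h2 : ((H1.card : ℝ) + H0.card + B.card + C.card) ≤ n := by exact_mod_cast h1
    have h3 := hHost.tc.cardB
    have h4 := hHost.tc.cardC
    rw [hV] at h3 h4
    linarith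
  have hH0R : (0 : ℝ) ≤ H0.card := by positivity
  have hH1R : (0 : ℝ) ≤ H1.card := by positivity
  -- the sources
  have hmU6R : (mU : ℝ) ≤ 6 * k := by exact_mod_cast hmU6
  have hkR : (0 : ℝ) ≤ k := by positivity
  have hc0 : (U' ∪ H0).card ≤ (M.filter fun v => side v = false).card := by
    have h1 : ((U' ∪ H0).card : ℝ) ≤ U'.card + H0.card := by
      exact_mod_cast Finset.card_union_le _ _
    have h2 := hM false
    rw [hU'card] at h1
    have h3 : ((U' ∪ H0).card : ℝ) ≤ ((M.filter fun v => side v = false).card : ℝ) := by linarith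
    exact_mod_cast h3
  have hc1 : H1.card ≤ (M.filter fun v => side v = true).card := by
    have h2 := hM true
    have h3 : (H1.card : ℝ) ≤ ((M.filter fun v => side v = true).card : ℝ) := by linarith
    exact_mod_cast h3
  obtain ⟨S0, hS0M, hS0c⟩ := Finset.exists_subset_card_eq hc0
  obtain ⟨S1, hS1M, hS1c⟩ := Finset.exists_subset_card_eq hc1
  have hS0 : ∀ x ∈ S0, x ∈ M ∧ side x = false := fun x hx => Finset.mem_filter.1 (hS0M hx)
  have hS1 : ∀ x ∈ S1, x ∈ M ∧ side x = true := fun x hx => Finset.mem_filter.1 (hS1M hx)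
  obtain ⟨g₀, hg₀, hg₀im⟩ := ais_bij f₀ S0 (U' ∪ H0) hS0c
  obtain ⟨g₁, hg₁, hg₁im⟩ := ais_bij f₀ S1 H1 hS1c
  have hS01 : Disjoint S0 S1 := by
    rw [Finset.disjoint_left]
    intro x hx hx'
    have h1 := (hS0 x hx).2
    rw [(hS1 x hx').2] at h1
    exact absurd h1 (by decide)
  have hU'H1 : Disjoint U' H1 := by
    rw [Finset.disjoint_left]
    intro v hv hv'
    rw [hH1, Finset.mem_sdiff, Finset.mem_union] at hv'
    exact hv'.2 (Or.inr hv)
  obtain ⟨g, hge₀, hge₁, hginj, hgim⟩ := ais_glue S0 S1 g₀ g₁ hg₀ hg₁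
    (by
      rw [hg₀im, hg₁im, Finset.disjoint_union_left]
      exact ⟨hU'H1, hH10.symm⟩) hS01
  rw [hg₀im, hg₁im] at hgim
  have hΦH : Disjoint Φ (U' ∪ H0 ∪ H1) := by
    rw [Finset.disjoint_union_right, Finset.disjoint_union_right]
    refine ⟨⟨hU'Φ.symm, ?_⟩, ?_⟩
    · rw [Finset.disjoint_left]
      intro v hv hv'
      rw [hH0, Finset.mem_sdiff, Finset.mem_union] at hv'
      exact hv'.2 (Or.inr hv)
    · rw [Finset.disjoint_left]
      intro v hv hv'
      rw [hH1, Finset.mem_sdiff, Finset.mem_union, Finset.mem_union] at hv'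
      exact hv'.2 (Or.inl (Or.inr hv))
  have hMTT : Disjoint M TT := hTree.off
  have hSM : ∀ x ∈ S0 ∪ S1, x ∈ M := by
    intro x hx
    rcases Finset.mem_union.1 hx with h | h
    · exact (hS0 x h).1
    · exact (hS1 x h).1
  have hTTS : Disjoint TT (S0 ∪ S1) := by
    rw [Finset.disjoint_left]
    intro x hx hx'
    exact Finset.disjoint_left.1 hMTT (hSM x hx') hx
  obtain ⟨ψ, hψe₁, hψe₂, hψinj, hψim⟩ := ais_glue TT (S0 ∪ S1) f g hfinj hginj
    (by rw [hgim]; exact hΦH) hTTS
  rw [hgim] at hψim
  set Sp : Finset (Fin n) := TT ∪ (S0 ∪ S1) with hSp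
  have hmemIm : ∀ v, v ∈ Sp.image ψ ↔ v ∈ Φ ∨ v ∈ U' ∨ v ∈ H0 ∨ v ∈ H1 := by
    intro v
    rw [hψim, Finset.mem_union, Finset.mem_union, Finset.mem_union]
    tauto
  obtain ⟨Lf, lam, hmet⟩ := finI Δ T hT hV D B C hBC γ G K dl lv hHost.stk Sp ψ side
    (by
      intro a ha b hb hab
      have hsub : ∀ x ∈ Sp, x ∈ Tc true ∪ Tc false ∪ M := by
        intro x hx
        rw [hSp, Finset.mem_union] at hx
        rw [Finset.mem_union]
        rcases hx with h | h
        · exact Or.inl h
        · exact Or.inr (hSM x h)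
      exact hTree.sep a (hsub a ha) b (hsub b hb) hab)
    hψinj
    (by
      intro v hvB hvC
      rw [hmemIm]
      by_cases h1 : v ∈ Φ
      · exact Or.inl h1
      by_cases h2 : v ∈ U'
      · exact Or.inr (Or.inl h2)
      by_cases h3 : v ∈ X
      · refine Or.inr (Or.inr (Or.inr ?_))
        rw [hH1, Finset.mem_sdiff, Finset.mem_union, Finset.mem_union]
        exact ⟨h3, by tauto⟩
      · refine Or.inr (Or.inr (Or.inl ?_))
        rw [hH0, Finset.mem_sdiff, Finset.mem_union, Finset.mem_union]
        exact ⟨Finset.mem_univ _, by tauto⟩)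
    (by
      intro v hv hvBC
      rw [hmemIm] at hv
      rw [Finset.mem_union] at hvBC
      rcases hv with h | h | h | h
      · rcases hΦF v h with h' | h'
        · exact hHost.cuts.sub true h'
        · exact hHost.cuts.sub false h'
      · exact Finset.mem_union_left _ (hHost.UG (hU'U h))
      · have := hH0B v h
        tauto
      · have := hH1B v h
        tauto)
    (by
      intro x y hxy hx hy
      have hx' : x ∉ TT := fun h => hx (Finset.mem_union_left _ h)
      have hy' : y ∉ TT := fun h => hy (Finset.mem_union_left _ h)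
      rcases hTree.tc.arc x y hxy with h | h | h
      · exact h
      · exact absurd h hx'
      · exact absurd h hy')
    (by
      intro x hx s y hxy
      rw [hSp, Finset.mem_union] at hx
      rcases hx with hx | hx
      · -- cut vertices
        obtain ⟨δ, hxδ, hψδ⟩ : ∃ δ, x ∈ Tc δ ∧ ψ x ∈ F δ := by
          rw [hψe₁ x hx]
          rw [hTT, Finset.mem_union] at hx
          rcases hx with h | h
          · exact ⟨true, h, by rw [hfe₁ x h]; exact hf₁F x h⟩
          · exact ⟨false, h, by rw [hfe₂ x h]; exact hf₂F x h⟩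
        cases hkd : kd δ s with
        | true =>
          rw [hTree.tc.con δ x hxδ s hkd y hxy]
          exact hHost.cuts.con δ _ hψδ s
        | false => exact hHost.cuts.fre δ _ hψδ s hkd _
      · -- sources
        have hxM := hSM x hx
        have hsrc := hTree.src x hxM
        cases s with
        | false => exact absurd hxy (hsrc y)
        | true =>
          have hxy' : T.Arc x y := hxy
          rw [hTree.nb x hxM y (ais_arc_nb hxy')]
          rw [hψe₂ x hx]
          rw [Finset.mem_union] at hx
          rcases hx with h | h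
          · rw [(hS0 x h).2, hge₀ x h]
            have h1 : g₀ x ∈ U' ∪ H0 := by
              rw [← hg₀im]
              exact Finset.mem_image_of_mem _ h
            rcases Finset.mem_union.1 h1 with h2 | h2
            · exact hHost.Uus _ (hU'U h2)
            · left
              have h3 := hHost.out (g₀ x)
              rw [decide_eq_false (hH0B _ h2).2.2] at h3
              exact h3
          · rw [(hS1 x h).2, hge₁ x h]
            have h1 : g₁ x ∈ H1 := by
              rw [← hg₁im]
              exact Finset.mem_image_of_mem _ h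
            left
            have h3 := hHost.out (g₁ x)
            rw [decide_eq_true (hH1B _ h1).2.2] at h3
            exact h3)
    (by
      -- left side
      have h1 : (univ.filter fun y => y ∉ Sp ∧ side y = true).card + tT + S1.card = N := by
        have e1 : (univ.filter fun v => side v = true) =
            (univ.filter fun y => y ∉ Sp ∧ side y = true) ∪
              (TT.filter fun x => side x = true) ∪ S1 := by
          ext v
          rw [Finset.mem_union, Finset.mem_union, Finset.mem_filter, Finset.mem_filter,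
            Finset.mem_filter]
          constructor
          · rintro ⟨_, hv⟩
            by_cases h2 : v ∈ Sp
            · rcases Finset.mem_union.1 h2 with h2 | h2
              · exact Or.inl (Or.inr ⟨h2, hv⟩)
              · rcases Finset.mem_union.1 h2 with h2 | h2
                · rw [(hS0 v h2).2] at hv
                  exact absurd hv (by decide)
                · exact Or.inr h2
            · exact Or.inl (Or.inl ⟨Finset.mem_univ _, h2, hv⟩)
          · rintro ((⟨_, _, h⟩ | ⟨_, h⟩) | h)
            · exact ⟨Finset.mem_univ _, h⟩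
            · exact ⟨Finset.mem_univ _, h⟩
            · exact ⟨Finset.mem_univ _, (hS1 v h).2⟩
        rw [hN, e1, Finset.card_union_of_disjoint, Finset.card_union_of_disjoint]
        · rw [Finset.disjoint_left]
          intro v hv hv'
          rw [Finset.mem_filter] at hv hv'
          exact hv.2.1 (Finset.mem_union_left _ hv'.1)
        · rw [Finset.disjoint_left]
          intro v hv hv'
          rw [Finset.mem_union, Finset.mem_filter, Finset.mem_filter] at hv
          rcases hv with h | h
          · exact h.2.1 (Finset.mem_union_right _ (Finset.mem_union_right _ hv'))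
          · exact Finset.disjoint_left.1 hTTS h.1 (Finset.mem_union_right _ hv')
      -- right side
      have h2 : (B \ Sp.image ψ).card + H1.card + (X ∩ Φ).card + mU = X.card := by
        have e1 : X = (B \ Sp.image ψ) ∪ H1 ∪ (X ∩ Φ) ∪ U' := by
          ext v
          rw [Finset.mem_union, Finset.mem_union, Finset.mem_union, Finset.mem_sdiff, hmemIm,
            Finset.mem_inter]
          constructor
          · intro hv
            by_cases h3 : v ∈ Φ
            · exact Or.inl (Or.inr ⟨hv, h3⟩)
            by_cases h4 : v ∈ U'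
            · exact Or.inr h4
            by_cases h5 : v ∈ B
            · refine Or.inl (Or.inl (Or.inl ⟨h5, ?_⟩))
              rintro (h | h | h | h)
              · exact h3 h
              · exact h4 h
              · exact (hH0B v h).1 h5
              · exact (hH1B v h).1 h5
            · refine Or.inl (Or.inl (Or.inr ?_))
              rw [hH1, Finset.mem_sdiff, Finset.mem_union, Finset.mem_union]
              exact ⟨hv, by tauto⟩
          · rintro (((h | h) | h) | h)
            · exact hBX h.1
            · exact (hH1B v h).2.2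
            · exact h.1
            · exact hU'X h
        conv_rhs => rw [e1]
        rw [Finset.card_union_of_disjoint, Finset.card_union_of_disjoint,
          Finset.card_union_of_disjoint, hU'card]
        · rw [Finset.disjoint_left]
          intro v hv hv'
          rw [Finset.mem_sdiff] at hv
          exact (hH1B v hv').1 hv.1
        · rw [Finset.disjoint_left]
          intro v hv hv'
          rw [Finset.mem_union, Finset.mem_sdiff, hmemIm] at hv
          rw [Finset.mem_inter] at hv'
          rcases hv with h | h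
          · exact h.2 (Or.inl hv'.2)
          · exact Finset.disjoint_left.1 hΦH hv'.2 (Finset.mem_union_right _ h)
        · rw [Finset.disjoint_left]
          intro v hv hv'
          rw [Finset.mem_union, Finset.mem_union, Finset.mem_sdiff, hmemIm,
            Finset.mem_inter] at hv
          rcases hv with (h | h) | h
          · exact h.2 (Or.inr (Or.inl hv'))
          · exact Finset.disjoint_left.1 hU'H1 hv' h
          · exact Finset.disjoint_left.1 hU'Φ hv' h.2
      omega)
  refine ⟨Sp, ψ, Lf, lam, ?_, hmet⟩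
  have h1 : Sp.card ≤ 2 * k + (mU + H0.card) + H1.card := by
    have a1 := Finset.card_union_le TT (S0 ∪ S1)
    have a2 := Finset.card_union_le S0 S1
    have a3 := Finset.card_union_le U' H0
    rw [← hSp] at a1
    omega
  have h2 : (Sp.card : ℝ) ≤ 2 * k + (mU + H0.card) + H1.card := by exact_mod_cast h1
  linarith

end

end OT
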