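import Pool.Agent.Helper49.EX.FI
import Pool.Agent.Helper2.EX.SA
import Pool.Agent.Helper14.EX.AIS

/-!
# MP_2857a5_co : module AIP, assembly in the case of trees consisting mainly of directed paths
-/

set_option autoImplicit false

open Finset
open scoped Classical

namespace OT

noncomputable section

/-! ### Counting pairs of labels -/

section cnt

variable {V : Type}

/-- The number of `u ∈ S` with labels `(a, b)`. -/
def aip_cnt (S : Finset V) (g : V → Bool → Bool) (a b : Bool) : ℕ :=
  (S.filter fun u => g u false = a ∧ g u true = b).card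

lemma aip_cnt_const (S : Finset V) (g : V → Bool → Bool) (c d a b : Bool)
    (h : ∀ u ∈ S, g u false = c ∧ g u true = d) :
    aip_cnt S g a b = if c = a ∧ d = b then S.card else 0 := by
  unfold aip_cnt
  split_ifs with h1
  · rw [Finset.filter_true_of_mem]
    intro u hu
    rw [(h u hu).1, (h u hu).2]
    exact h1
  · rw [Finset.filter_false_of_mem, Finset.card_empty]
    intro u hu
    rw [(h u hu).1, (h u hu).2]
    exact h1

lemma aip_cnt_union (S T : Finset V) (hd : Disjoint S T) (g : V → Bool → Bool) (a b : Bool) :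
    aip_cnt (S ∪ T) g a b = aip_cnt S g a b + aip_cnt T g a b := by
  unfold aip_cnt
  rw [Finset.filter_union, Finset.card_union_of_disjoint]
  exact Finset.disjoint_filter_filter hd

lemma aip_cnt_congr (S : Finset V) (g g' : V → Bool → Bool) (a b : Bool)
    (h : ∀ u ∈ S, ∀ s, g u s = g' u s) : aip_cnt S g a b = aip_cnt S g' a b := by
  unfold aip_cnt
  congr 1
  apply Finset.filter_congr
  intro u hu
  rw [h u hu, h u hu]

lemma aip_cnt_le (S : Finset V) (g : V → Bool → Bool) (a b : Bool) : aip_cnt S g a b ≤ S.card :=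
  Finset.card_filter_le _ _

lemma aip_cnt_out (S : Finset V) (g : V → Bool → Bool) (b : Bool) :
    (S.filter fun u => g u true = b).card = aip_cnt S g true b + aip_cnt S g false b := by
  unfold aip_cnt
  rw [← Finset.card_union_of_disjoint]
  · congr 1
    ext u
    rw [Finset.mem_filter, Finset.mem_union, Finset.mem_filter, Finset.mem_filter]
    cases g u false <;> tauto
  · rw [Finset.disjoint_left]
    intro u hu hu'
    rw [Finset.mem_filter] at hu hu'
    rw [hu.2.1] at hu'
    exact absurd hu'.2.1 (by decide)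

lemma aip_cnt_in (S : Finset V) (g : V → Bool → Bool) (a : Bool) :
    (S.filter fun u => g u false = a).card = aip_cnt S g a true + aip_cnt S g a false := by
  unfold aip_cnt
  rw [← Finset.card_union_of_disjoint]
  · congr 1
    ext u
    rw [Finset.mem_filter, Finset.mem_union, Finset.mem_filter, Finset.mem_filter]
    cases g u true <;> tauto
  · rw [Finset.disjoint_left]
    intro u hu hu'
    rw [Finset.mem_filter] at hu hu'
    rw [hu.2.2] at hu'
    exact absurd hu'.2.2 (by decide)

end cnt

lemma aip_adj_nb {n : ℕ} {T : PTree n} {s : Bool} {x y : Fin n} (h : Adj T.Arc s x y) :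
    T.Nb x y := by
  cases s with
  | true => exact ais_arc_nb h
  | false => exact (ais_arc_nb h).symm

/-- The target. -/
def aip_T0 (v11 a11F v10 a10F f : ℕ) (τ ω : Bool) (m0 : ℤ) : ℤ :=
  (v11 : ℤ) - a11F + 6 * f + 6 * v10 - 6 * a10F + 5 * (if τ = true then max m0 0 else 0) -
    (if ω = true then 1 else 6) * max (-m0) 0

/-- `segAsm` with a reference map in place of the assumption that `V` is nonempty. -/
lemma aip_seg {n : ℕ} (T : PTree n) {V : Type} [Fintype V] (f₀ : Fin n → V)
    (side pos : Fin n → Bool)
    (Bad A : Finset (Fin n)) (seg : Fin n → ℕ → Fin n) (hseg : Segs T pos Bad A seg)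
    (hside : ∀ a ∈ A, ∀ j, j ≤ 8 → side (seg a j) = side (seg a 0))
    (H : Finset V) (ut : V → Bool → Bool) (d : ℤ)
    (hbal : (H.filter fun u => ut u false = true ∧ ut u true = false).card =
      (H.filter fun u => ut u false = false ∧ ut u true = true).card)
    (hd : |d| ≤ (H.filter fun u => ut u false = true ∧ ut u true = false).card)
    (hA : ∀ k, H.card ≤ (A.filter fun a => side (seg a 0) = k).card) :
    ∃ (Hp : Finset (Fin n)) (φ : Fin n → V) (side' : Fin n → Bool),
      Placed T side A seg H ut d Hp φ side' := by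
  rcases isEmpty_or_nonempty V with hV | hV
  · have hH : H = ∅ := Finset.eq_empty_of_isEmpty H
    subst hH
    have hd0 : d = 0 := by
      have h1 := abs_le.1 hd
      simp only [Finset.filter_empty, Finset.card_empty] at h1
      push_cast at h1
      linarith [h1.1, h1.2]
    refine ⟨∅, f₀, side, ?_, ?_, ?_, ?_, ?_, ?_, ?_, ?_⟩
    · intro x hx
      exact absurd hx (by simp)
    · exact Finset.image_empty _
    · intro x hx
      exact absurd hx (Finset.notMem_empty _)
    · intro x _
      rfl
    · intro x y _ _ _ h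
      exact h
    · intro x hx
      exact absurd hx (Finset.notMem_empty _)
    · intro x hx
      exact absurd hx (Finset.notMem_empty _)
    · rw [hd0]
      simp
  · exact segAsm T side pos Bad A seg hseg hside H ut d hbal hd hA

theorem asmIP {n : ℕ} (Δ : ℕ) (T : PTree n) (hT : T.Deg Δ) {V : Type} [Fintype V]
    (hV : Fintype.card V = n) (D : V → V → Prop) (B C : Finset V) (lab : V → Bool → Bool)
    (G K : Finset V) (dl : V → Bool) (lv : V → Fin (Δ + 1) → V) (kd : Bool → Bool → Bool)
    (F : Bool → Finset V) (τ ω : Bool) (U W : Finset V) (γ κ : ℝ) (k : ℕ)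
    (hHost : HostIP D Δ B C lab G K dl lv kd F τ ω U W γ κ (41 * k)) :
    ∃ m : ℤ, |(m : ℝ)| ≤ 100 * κ * (n : ℝ) + 5000 * k ∧
      ∀ (side : Fin n → Bool) (Tc : Bool → Finset (Fin n)) (A : Finset (Fin n))
        (seg : Fin n → ℕ → Fin n), TreeIP T kd side Tc A seg → (∀ δ, (Tc δ).card ≤ k) →
      |2 * ((univ.filter fun v => side v = true).card : ℤ) - n - m| ≤ k →
      (∀ l, 3 * κ * (n : ℝ) + 200 * k ≤ ((A.filter fun a => side (seg a 0) = l).card : ℝ)) →
      ∃ (Sp : Finset (Fin n)) (ψ : Fin n → V) (side' : Fin n → Bool) (Lf : Finset (Fin n))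
        (lam : Fin n → V), (Sp.card : ℝ) ≤ 3 * κ * (n : ℝ) + 300 * k ∧
        MetData D T (sd B C) (fun k l => k = l) γ Sp ψ side' Lf lam := by
  have hBC := hHost.tc.disj
  obtain ⟨F₁, hF₁F, hF₁c⟩ := Finset.exists_subset_card_eq
    (show 20 * k ≤ (F true).card by have := hHost.cuts.card true; omega)
  obtain ⟨F₀, hF₀F, hF₀c⟩ := Finset.exists_subset_card_eq
    (show 20 * k ≤ (F false).card by have := hHost.cuts.card false; omega)
  have hF₁₀ : Disjoint F₁ F₀ := Finset.disjoint_of_subset_left hF₁F
    (Finset.disjoint_of_subset_right hF₀F hHost.cuts.disj)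
  set F' : Finset V := F₁ ∪ F₀ with hF'
  have hF'c : F'.card = 40 * k := by
    rw [hF', Finset.card_union_of_disjoint hF₁₀]
    omega
  have hUF' : Disjoint U F' := by
    rw [hF', Finset.disjoint_union_right]
    exact ⟨Finset.disjoint_of_subset_right hF₁F (hHost.UF true),
      Finset.disjoint_of_subset_right hF₀F (hHost.UF false)⟩
  have hWF' : Disjoint W F' := by
    rw [hF', Finset.disjoint_union_right]
    exact ⟨Finset.disjoint_of_subset_right hF₁F (hHost.WF true),
      Finset.disjoint_of_subset_right hF₀F (hHost.WF false)⟩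
  -- the numbers
  set v11 := aip_cnt univ lab true true with hv11
  set v10 := aip_cnt univ lab true false with hv10
  set v01 := aip_cnt univ lab false true with hv01
  set a11 := aip_cnt F' lab true true with ha11
  set a10 := aip_cnt F' lab true false with ha10
  set a01 := aip_cnt F' lab false true with ha01
  have hsumF : a11 + a10 + a01 ≤ 40 * k := by
    have h1 := aip_cnt_out F' lab true
    have h2 := aip_cnt_in F' lab true
    have h3 : a11 + a10 + a01 ≤ F'.card := by
      have h4 : (F'.filter fun u => lab u false = true).card + (F'.filter fun u =>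
          ¬ lab u false = true).card = F'.card := Finset.card_filter_add_card_filter_not _
      have h5 : a01 ≤ (F'.filter fun u => ¬ lab u false = true).card := by
        apply Finset.card_le_card
        intro u hu
        rw [Finset.mem_filter] at hu ⊢
        refine ⟨hu.1, ?_⟩
        rw [hu.2.1]
        decide
      omega
    omega
  have hoc : (univ.filter fun u => lab u true = true).card = v11 + v01 := aip_cnt_out univ lab true
  have hic : (univ.filter fun u => lab u false = true).card = v11 + v10 := aip_cnt_in univ lab true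
  have hr0 := hHost.r0
  have hr1 := hHost.r1
  have hcardU := hHost.cardU
  have hcardW := hHost.cardW
  rw [hoc, hic] at hr0 hr1 hcardU hcardW
  rw [hV] at hr1
  set m0 : ℤ := (v01 : ℤ) - v10 - a01 + a10 with hm0
  set T0 : ℤ := aip_T0 v11 a11 v10 a10 (20 * k) τ ω m0 with hT0
  have hkR : (0 : ℝ) ≤ k := by positivity
  -- sizes of the classes
  have hBCn : B.card + C.card ≤ n := by
    rw [← hV, ← Finset.card_univ, ← Finset.card_union_of_disjoint hBC]
    exact Finset.card_le_card (Finset.subset_univ _)
  have hcB := hHost.tc.cardB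
  have hcC := hHost.tc.cardC
  rw [hV] at hcB hcC
  have hBCnR : (B.card : ℝ) + C.card ≤ n := by exact_mod_cast hBCn
  have hκn : 0 ≤ κ * n := by linarith
  have hEc : ((univ \ (B ∪ C) : Finset V).card : ℝ) ≤ 2 * κ * n := by
    have h1 : (univ \ (B ∪ C) : Finset V).card + (B.card + C.card) = n := by
      rw [← Finset.card_union_of_disjoint hBC, Finset.card_sdiff_add_card_eq_card
        (Finset.subset_univ _), Finset.card_univ, hV]
    have h2 : ((univ \ (B ∪ C) : Finset V).card : ℝ) + (B.card + C.card) = n := by
      exact_mod_cast h1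
    linarith
  have hv11B : B.card ≤ v11 := by
    apply Finset.card_le_card
    intro u hu
    rw [Finset.mem_filter]
    exact ⟨Finset.mem_univ _, hHost.labB u hu _, hHost.labB u hu _⟩
  have hv11C : v11 + C.card ≤ n := by
    have h1 : Disjoint (univ.filter fun u => lab u false = true ∧ lab u true = true) C := by
      rw [Finset.disjoint_left]
      intro u hu hu'
      rw [Finset.mem_filter, hHost.labC u hu' false] at hu
      exact absurd hu.2.1 (by decide)
    have h2 := Finset.card_le_card (Finset.subset_univ
      ((univ.filter fun u => lab u false = true ∧ lab u true = true) ∪ C))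
    rw [Finset.card_union_of_disjoint h1, Finset.card_univ, hV] at h2
    exact h2
  have hv10E : v10 ≤ (univ \ (B ∪ C) : Finset V).card := by
    apply Finset.card_le_card
    intro u hu
    rw [Finset.mem_filter] at hu
    rw [Finset.mem_sdiff, Finset.mem_union]
    refine ⟨Finset.mem_univ _, ?_⟩
    rintro (h | h)
    · rw [hHost.labB u h true] at hu
      exact absurd hu.2.2 (by decide)
    · rw [hHost.labC u h false] at hu
      exact absurd hu.2.1 (by decide)
  have hv11BR : (B.card : ℝ) ≤ v11 := by exact_mod_cast hv11B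
  have hv11CR : (v11 : ℝ) + C.card ≤ n := by exact_mod_cast hv11C
  have hv10R : (v10 : ℝ) ≤ 2 * κ * n := le_trans (by exact_mod_cast hv10E) hEc
  have hsumFR : (a11 : ℝ) + a10 + a01 ≤ 40 * k := by exact_mod_cast hsumF
  have ha11R : (0 : ℝ) ≤ a11 := by positivity
  have ha10R : (0 : ℝ) ≤ a10 := by positivity
  have ha01R : (0 : ℝ) ≤ a01 := by positivity
  have hv10R' : (0 : ℝ) ≤ v10 := by positivity
  push_cast at hr1
  have hr0R : (v10 : ℝ) ≤ v01 := by
    have : v10 ≤ v01 := by omega
    exact_mod_cast this
  refine ⟨2 * T0 - n, ?_, ?_⟩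
  · -- the size of the target
    have h1 : (max m0 0 : ℤ) ≤ (v01 : ℤ) - v10 + a10 := by
      apply max_le
      · rw [hm0]
        have : (0 : ℤ) ≤ a01 := Int.natCast_nonneg _
        linarith
      · have : (0 : ℤ) ≤ a10 := Int.natCast_nonneg _
        have : (v10 : ℤ) ≤ v01 := by exact_mod_cast (by omega : v10 ≤ v01)
        linarith
    have h2 : (max (-m0) 0 : ℤ) ≤ a01 := by
      apply max_le
      · rw [hm0]
        have : (0 : ℤ) ≤ a10 := Int.natCast_nonneg _
        have : (v10 : ℤ) ≤ v01 := by exact_mod_cast (by omega : v10 ≤ v01)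
        linarith
      · exact Int.natCast_nonneg _
    have h3 : (0 : ℤ) ≤ max m0 0 := le_max_right _ _
    have h4 : (0 : ℤ) ≤ max (-m0) 0 := le_max_right _ _
    have h5 : T0 ≤ (v11 : ℤ) - a11 + 6 * (20 * k : ℕ) + 6 * v10 - 6 * a10 +
        5 * ((v01 : ℤ) - v10 + a10) := by
      rw [hT0, aip_T0]
      cases τ <;> cases ω <;> simp only [if_true, if_false, Bool.false_eq_true] <;> linarith
    have h6 : (v11 : ℤ) - a11 + 6 * (20 * k : ℕ) + 6 * v10 - 6 * a10 - 6 * a01 ≤ T0 := by
      rw [hT0, aip_T0]
      cases τ <;> cases ω <;> simp only [if_true, if_false, Bool.false_eq_true] <;> linarith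
    have h5R : (T0 : ℝ) ≤ (v11 : ℝ) - a11 + 6 * (20 * k) + 6 * v10 - 6 * a10 +
        5 * ((v01 : ℝ) - v10 + a10) := by exact_mod_cast h5
    have h6R : (v11 : ℝ) - a11 + 6 * (20 * k) + 6 * v10 - 6 * a10 - 6 * a01 ≤ (T0 : ℝ) := by
      exact_mod_cast h6
    push_cast
    rw [abs_le]
    constructor <;> linarith
  intro side Tc A seg hTree hTck hbal hA
  set N : ℕ := (univ.filter fun v => side v = true).card with hN
  have hbal' := abs_le.1 hbal
  -- the vertices used for the cuts
  have hdisTc := hTree.tc.disj
  let f₀ : Fin n → V := (Fintype.equivFinOfCardEq hV).symm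
  have hTc1 := hTck true
  have hTc0 := hTck false
  obtain ⟨f₁, hf₁, hf₁F⟩ := ais_inj f₀ (Tc true) F₁ (by omega)
  obtain ⟨f₂, hf₂, hf₂F⟩ := ais_inj f₀ (Tc false) F₀ (by omega)
  have himF₁ : (Tc true).image f₁ ⊆ F₁ := by
    intro y hy
    obtain ⟨x, hx, rfl⟩ := Finset.mem_image.1 hy
    exact hf₁F x hx
  have himF₂ : (Tc false).image f₂ ⊆ F₀ := by
    intro y hy
    obtain ⟨x, hx, rfl⟩ := Finset.mem_image.1 hy
    exact hf₂F x hx
  obtain ⟨f, hfe₁, hfe₂, hfinj, hfim⟩ := ais_glue (Tc true) (Tc false) f₁ f₂ hf₁ hf₂
    (Finset.disjoint_of_subset_left himF₁ (Finset.disjoint_of_subset_right himF₂ hF₁₀)) hdisTc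
  set TT : Finset (Fin n) := Tc true ∪ Tc false with hTT
  set Φ : Finset V := TT.image f with hΦ
  have hTTcard : TT.card ≤ 2 * k := by
    have h1 := Finset.card_union_le (Tc true) (Tc false)
    rw [← hTT] at h1
    omega
  have hΦF' : Φ ⊆ F' := by
    rw [hfim]
    exact Finset.union_subset_union himF₁ himF₂
  set R₁ : Finset V := F₁ \ Φ with hR₁
  set R₀ : Finset V := F₀ \ Φ with hR₀
  have hR₁c : R₁.card + (Tc true).card = 20 * k := by
    have h1 : R₁ = F₁ \ (Tc true).image f₁ := by
      ext u
      rw [hR₁, hfim, Finset.mem_sdiff, Finset.mem_sdiff, Finset.mem_union]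
      constructor
      · rintro ⟨h1, h2⟩
        exact ⟨h1, fun h => h2 (Or.inl h)⟩
      · rintro ⟨h1, h2⟩
        refine ⟨h1, ?_⟩
        rintro (h | h)
        · exact h2 h
        · exact Finset.disjoint_left.1 hF₁₀ h1 (himF₂ h)
    rw [h1, ← Finset.card_image_of_injOn hf₁, Finset.card_sdiff_add_card_eq_card himF₁, hF₁c]
  have hR₀c : R₀.card + (Tc false).card = 20 * k := by
    have h1 : R₀ = F₀ \ (Tc false).image f₂ := by
      ext u
      rw [hR₀, hfim, Finset.mem_sdiff, Finset.mem_sdiff, Finset.mem_union]
      constructor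
      · rintro ⟨h1, h2⟩
        exact ⟨h1, fun h => h2 (Or.inr h)⟩
      · rintro ⟨h1, h2⟩
        refine ⟨h1, ?_⟩
        rintro (h | h)
        · exact Finset.disjoint_left.1 hF₁₀ (himF₁ h) h1
        · exact h2 h
    rw [h1, ← Finset.card_image_of_injOn hf₂, Finset.card_sdiff_add_card_eq_card himF₂, hF₀c]
  -- the adjusters
  set mm : ℤ := m0 + (Tc true).card - (Tc false).card with hmm
  obtain ⟨U', hU'U, hU'c⟩ := Finset.exists_subset_card_eq
    (show mm.toNat ≤ U.card by omega)
  obtain ⟨W', hW'W, hW'c⟩ := Finset.exists_subset_card_eq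
    (show (-mm).toNat ≤ W.card by
      by_cases h : 0 ≤ mm
      · have : (-mm).toNat = 0 := by omega
        omega
      · have h1 : v11 + v01 ≤ v11 + v10 + 41 * k := by omega
        have h2 := hcardW h1
        omega)
  have hUW' : Disjoint U' W' := (Finset.disjoint_of_subset_left hW'W
    (Finset.disjoint_of_subset_right hU'U hHost.WU)).symm
  have hU'F' : Disjoint U' F' := Finset.disjoint_of_subset_left hU'U hUF'
  have hW'F' : Disjoint W' F' := Finset.disjoint_of_subset_left hW'W hWF'
  set S : Finset V := F' ∪ U' ∪ W' with hS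
  set E' : Finset V := univ \ (B ∪ C ∪ S) with hE'
  set B' : Finset V := B \ S with hB'
  set C' : Finset V := C \ S with hC'
  set H : Finset V := R₁ ∪ R₀ ∪ U' ∪ W' ∪ E' with hH
  have hR₁F' : R₁ ⊆ F' := fun u hu =>
    Finset.mem_union_left _ (Finset.mem_sdiff.1 hu).1
  have hR₀F' : R₀ ⊆ F' := fun u hu =>
    Finset.mem_union_right _ (Finset.mem_sdiff.1 hu).1
  have hES : Disjoint E' S := by
    rw [Finset.disjoint_left]
    intro u hu hu'
    rw [hE', Finset.mem_sdiff] at hu
    exact hu.2 (Finset.mem_union_right _ hu')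
  have hEBC : ∀ u ∈ E', u ∉ B ∧ u ∉ C := by
    intro u hu
    rw [hE', Finset.mem_sdiff] at hu
    exact ⟨fun h => hu.2 (Finset.mem_union_left _ (Finset.mem_union_left _ h)),
      fun h => hu.2 (Finset.mem_union_left _ (Finset.mem_union_right _ h))⟩
  have hFS : F' ⊆ S := fun u hu => Finset.mem_union_left _ (Finset.mem_union_left _ hu)
  have hUS : U' ⊆ S := fun u hu => Finset.mem_union_left _ (Finset.mem_union_right _ hu)
  have hWS : W' ⊆ S := fun u hu => Finset.mem_union_right _ hu
  -- the usage
  let ut : V → Bool → Bool := fun u s =>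
    if u ∈ F₁ then !s else if u ∈ F₀ then s else if u ∈ U' then (if s = true then false else τ)
      else if u ∈ W' then (if s = true then ω else false) else lab u s
  have hut1 : ∀ u ∈ F₁, ∀ s, ut u s = !s := by
    intro u hu s
    simp only [ut]
    rw [if_pos hu]
  have hut0 : ∀ u ∈ F₀, ∀ s, ut u s = s := by
    intro u hu s
    simp only [ut]
    rw [if_neg (fun h => Finset.disjoint_left.1 hF₁₀ h hu), if_pos hu]
  have hnF : ∀ u, u ∉ F' → u ∉ F₁ ∧ u ∉ F₀ := fun u hu =>
    ⟨fun h => hu (Finset.mem_union_left _ h), fun h => hu (Finset.mem_union_right _ h)⟩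
  have hutU : ∀ u ∈ U', ∀ s, ut u s = if s = true then false else τ := by
    intro u hu s
    have h1 := hnF u (Finset.disjoint_left.1 hU'F' hu)
    simp only [ut]
    rw [if_neg h1.1, if_neg h1.2, if_pos hu]
  have hutW : ∀ u ∈ W', ∀ s, ut u s = if s = true then ω else false := by
    intro u hu s
    have h1 := hnF u (Finset.disjoint_left.1 hW'F' hu)
    simp only [ut]
    rw [if_neg h1.1, if_neg h1.2, if_neg (fun h => Finset.disjoint_left.1 hUW' h hu), if_pos hu]
  have hutE : ∀ u ∈ E', ∀ s, ut u s = lab u s := by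
    intro u hu s
    have h0 := Finset.disjoint_left.1 hES hu
    have h1 := hnF u (fun h => h0 (hFS h))
    simp only [ut]
    rw [if_neg h1.1, if_neg h1.2, if_neg (fun h => h0 (hUS h)), if_neg (fun h => h0 (hWS h))]
  -- counting in `H`
  have hd1 : Disjoint R₁ R₀ := Finset.disjoint_of_subset_left Finset.sdiff_subset
    (Finset.disjoint_of_subset_right Finset.sdiff_subset hF₁₀)
  have hd2 : Disjoint (R₁ ∪ R₀) U' := by
    rw [Finset.disjoint_union_left]
    exact ⟨(Finset.disjoint_of_subset_right hR₁F' hU'F').symm,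
      (Finset.disjoint_of_subset_right hR₀F' hU'F').symm⟩
  have hd3 : Disjoint (R₁ ∪ R₀ ∪ U') W' := by
    rw [Finset.disjoint_union_left, Finset.disjoint_union_left]
    exact ⟨⟨(Finset.disjoint_of_subset_right hR₁F' hW'F').symm,
      (Finset.disjoint_of_subset_right hR₀F' hW'F').symm⟩, hUW'⟩
  have hsubS : R₁ ∪ R₀ ∪ U' ∪ W' ⊆ S :=
    Finset.union_subset (Finset.union_subset (Finset.union_subset (hR₁F'.trans hFS)
      (hR₀F'.trans hFS)) hUS) hWS
  have hd4 : Disjoint (R₁ ∪ R₀ ∪ U' ∪ W') E' := (Finset.disjoint_of_subset_right hsubS hES).symm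
  have hcntH : ∀ a b, aip_cnt H ut a b = (if true = a ∧ false = b then R₁.card else 0) +
      (if false = a ∧ true = b then R₀.card else 0) + (if τ = a ∧ false = b then U'.card else 0) +
      (if false = a ∧ ω = b then W'.card else 0) + aip_cnt E' lab a b := by
    intro a b
    rw [hH, aip_cnt_union _ _ hd4, aip_cnt_union _ _ hd3, aip_cnt_union _ _ hd2,
      aip_cnt_union _ _ hd1]
    rw [aip_cnt_const R₁ ut true false a b (fun u hu =>
        ⟨by rw [hut1 u (Finset.mem_sdiff.1 hu).1]; rfl, by rw [hut1 u (Finset.mem_sdiff.1 hu).1]; rfl⟩),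
      aip_cnt_const R₀ ut false true a b (fun u hu =>
        ⟨by rw [hut0 u (Finset.mem_sdiff.1 hu).1], by rw [hut0 u (Finset.mem_sdiff.1 hu).1]⟩),
      aip_cnt_const U' ut τ false a b (fun u hu =>
        ⟨by rw [hutU u hu]; simp, by rw [hutU u hu]; simp⟩),
      aip_cnt_const W' ut false ω a b (fun u hu =>
        ⟨by rw [hutW u hu]; simp, by rw [hutW u hu]; simp⟩),
      aip_cnt_congr E' ut lab a b (fun u hu s => hutE u hu s)]
  -- counting in `V`
  have hcntV : ∀ a b, aip_cnt univ lab a b = aip_cnt F' lab a b +
      (if τ = a ∧ true = b then U'.card else 0) + (if true = a ∧ ω = b then W'.card else 0) +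
      aip_cnt E' lab a b + (if true = a ∧ true = b then B'.card else 0) +
      (if false = a ∧ false = b then C'.card else 0) := by
    intro a b
    have e1 : (univ : Finset V) = F' ∪ U' ∪ W' ∪ E' ∪ B' ∪ C' := by
      ext u
      simp only [Finset.mem_univ, true_iff]
      by_cases h1 : u ∈ S
      · exact Finset.mem_union_left _ (Finset.mem_union_left _ (Finset.mem_union_left _ h1))
      · by_cases h2 : u ∈ B
        · exact Finset.mem_union_left _ (Finset.mem_union_right _ (Finset.mem_sdiff.2 ⟨h2, h1⟩))
        · by_cases h3 : u ∈ C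
          · exact Finset.mem_union_right _ (Finset.mem_sdiff.2 ⟨h3, h1⟩)
          · refine Finset.mem_union_left _ (Finset.mem_union_left _ (Finset.mem_union_right _ ?_))
            rw [hE', Finset.mem_sdiff, Finset.mem_union, Finset.mem_union]
            exact ⟨Finset.mem_univ _, by tauto⟩
    have g1 : Disjoint F' U' := hU'F'.symm
    have g2 : Disjoint (F' ∪ U') W' := by
      rw [Finset.disjoint_union_left]
      exact ⟨hW'F'.symm, hUW'⟩
    have g3 : Disjoint (F' ∪ U' ∪ W') E' := hES.symm
    have g4 : Disjoint (F' ∪ U' ∪ W' ∪ E') B' := by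
      rw [Finset.disjoint_union_left]
      constructor
      · rw [Finset.disjoint_left]
        intro u hu hu'
        exact (Finset.mem_sdiff.1 hu').2 hu
      · rw [Finset.disjoint_left]
        intro u hu hu'
        exact (hEBC u hu).1 (Finset.mem_sdiff.1 hu').1
    have g5 : Disjoint (F' ∪ U' ∪ W' ∪ E' ∪ B') C' := by
      rw [Finset.disjoint_union_left, Finset.disjoint_union_left]
      refine ⟨⟨?_, ?_⟩, ?_⟩
      · rw [Finset.disjoint_left]
        intro u hu hu'
        exact (Finset.mem_sdiff.1 hu').2 hu
      · rw [Finset.disjoint_left]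
        intro u hu hu'
        exact (hEBC u hu).2 (Finset.mem_sdiff.1 hu').1
      · exact Finset.disjoint_of_subset_left Finset.sdiff_subset
          (Finset.disjoint_of_subset_right Finset.sdiff_subset hBC)
    rw [e1, aip_cnt_union _ _ g5, aip_cnt_union _ _ g4, aip_cnt_union _ _ g3,
      aip_cnt_union _ _ g2, aip_cnt_union _ _ g1]
    rw [aip_cnt_const U' lab τ true a b (fun u hu =>
        ⟨(hHost.Ulab u (hU'U hu)).2, (hHost.Ulab u (hU'U hu)).1⟩),
      aip_cnt_const W' lab true ω a b (fun u hu =>
        ⟨(hHost.Wlab u (hW'W hu)).1, (hHost.Wlab u (hW'W hu)).2⟩),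
      aip_cnt_const B' lab true true a b (fun u hu =>
        ⟨hHost.labB u (Finset.mem_sdiff.1 hu).1 _, hHost.labB u (Finset.mem_sdiff.1 hu).1 _⟩),
      aip_cnt_const C' lab false false a b (fun u hu =>
        ⟨hHost.labC u (Finset.mem_sdiff.1 hu).1 _, hHost.labC u (Finset.mem_sdiff.1 hu).1 _⟩)]
  have hV11 := hcntV true true
  have hV10 := hcntV true false
  have hV01 := hcntV false true
  have hH11 := hcntH true true
  have hH10 := hcntH true false
  have hH01 := hcntH false true
  set p : ℕ := aip_cnt H ut true false with hp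
  set p' : ℕ := aip_cnt H ut false true with hp'
  set h11 : ℕ := aip_cnt H ut true true with hh11
  set tT : ℕ := (TT.filter fun x => side x = true).card with htT
  have htTle : tT ≤ 2 * k := (Finset.card_filter_le _ _).trans hTTcard
  rw [← hv11, ← ha11] at hV11
  rw [← hv10, ← ha10] at hV10
  rw [← hv01, ← ha01] at hV01
  have hpp : p = p' := by
    revert hV11 hV10 hV01 hH11 hH10 hH01
    cases τ <;> cases ω <;> simp <;> omega
  set d : ℤ := (N : ℤ) - h11 - 6 * p - tT - B'.card with hd
  have hdp : |d| ≤ p := by
    have hT0' : T0 = aip_T0 v11 a11 v10 a10 (20 * k) τ ω m0 := hT0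
    unfold aip_T0 at hT0'
    rw [abs_le]
    revert hV11 hV10 hV01 hH11 hH10 hH01 hT0'
    cases τ <;> cases ω <;> simp <;> omega
  -- size of `H`
  have hHc : H.card ≤ R₁.card + R₀.card + U'.card + W'.card + E'.card := by
    rw [hH]
    have h1 := Finset.card_union_le (R₁ ∪ R₀ ∪ U' ∪ W') E'
    have h2 := Finset.card_union_le (R₁ ∪ R₀ ∪ U') W'
    have h3 := Finset.card_union_le (R₁ ∪ R₀) U'
    have h4 := Finset.card_union_le R₁ R₀
    omega
  have hE'c : (E'.card : ℝ) ≤ 2 * κ * n := by
    refine le_trans ?_ hEc
    have : E'.card ≤ (univ \ (B ∪ C) : Finset V).card := by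
      apply Finset.card_le_card
      intro u hu
      rw [Finset.mem_sdiff, Finset.mem_union]
      exact ⟨Finset.mem_univ _, by have := hEBC u hu; tauto⟩
    exact_mod_cast this
  have hHcR : (H.card : ℝ) ≤ 3 * κ * n + 122 * k := by
    have h1 : H.card + v10 ≤ 122 * k + v01 + E'.card := by omega
    have h2 : (H.card : ℝ) + v10 ≤ 122 * k + v01 + E'.card := by exact_mod_cast h1
    linarith
  -- placing `H` on the segments
  obtain ⟨Hp, φ, side', hPl⟩ := aip_seg T f₀ side T.col TT A seg hTree.segs hTree.const H ut d hpp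
    hdp (by
      intro l
      have h1 := hA l
      have h2 : (H.card : ℝ) ≤ ((A.filter fun a => side (seg a 0) = l).card : ℝ) := by linarith
      exact_mod_cast h2)
  have hHpTT : ∀ x ∈ Hp, ∀ b ∈ TT, x ∉ T.ball 3 b := by
    intro x hx b hb
    obtain ⟨a, ha, j, hj1, hj7, rfl⟩ := hPl.mem x hx
    exact hTree.segs.bad a ha j (by omega) b hb
  have hTTHp : Disjoint TT Hp := by
    rw [Finset.disjoint_left]
    intro x hx hx'
    exact hHpTT x hx' x hx (T.self_mem_ball 3 x)
  have hside : ∀ b ∈ TT, ∀ y ∈ T.ball 1 b, side' y = side y := by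
    intro b hb y hy
    apply hPl.off
    intro a ha j hj1 hj7 hyj
    apply hTree.segs.bad a ha j (by omega) b hb
    rw [← hyj]
    exact T.ball_mono (by omega) _ hy
  have hΦH : Disjoint Φ H := by
    rw [Finset.disjoint_left]
    intro u hu hu'
    rw [hH, Finset.mem_union, Finset.mem_union, Finset.mem_union, Finset.mem_union] at hu'
    rcases hu' with (((h | h) | h) | h) | h
    · exact (Finset.mem_sdiff.1 h).2 hu
    · exact (Finset.mem_sdiff.1 h).2 hu
    · exact Finset.disjoint_left.1 hU'F' h (hΦF' hu)
    · exact Finset.disjoint_left.1 hW'F' h (hΦF' hu)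
    · exact Finset.disjoint_left.1 hES h (hFS (hΦF' hu))
  obtain ⟨ψ, hψe₁, hψe₂, hψinj, hψim⟩ := ais_glue TT Hp f φ hfinj hPl.inj
    (by rw [hPl.image]; exact hΦH) hTTHp
  rw [hPl.image] at hψim
  set Sp : Finset (Fin n) := TT ∪ Hp with hSp
  have hmemIm : ∀ v, v ∈ Sp.image ψ ↔ v ∈ F' ∨ v ∈ U' ∨ v ∈ W' ∨ v ∈ E' := by
    intro v
    rw [hψim, Finset.mem_union, hH, Finset.mem_union, Finset.mem_union, Finset.mem_union,
      Finset.mem_union]
    constructor
    · rintro (h | ((((h | h) | h) | h) | h))
      · exact Or.inl (hΦF' h)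
      · exact Or.inl (hR₁F' h)
      · exact Or.inl (hR₀F' h)
      · exact Or.inr (Or.inl h)
      · exact Or.inr (Or.inr (Or.inl h))
      · exact Or.inr (Or.inr (Or.inr h))
    · rintro (h | h | h | h)
      · by_cases h1 : v ∈ Φ
        · exact Or.inl h1
        · rcases Finset.mem_union.1 h with h2 | h2
          · exact Or.inr (Or.inl (Or.inl (Or.inl (Or.inl (Finset.mem_sdiff.2 ⟨h2, h1⟩)))))
          · exact Or.inr (Or.inl (Or.inl (Or.inl (Or.inr (Finset.mem_sdiff.2 ⟨h2, h1⟩)))))
      · exact Or.inr (Or.inl (Or.inl (Or.inr h)))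
      · exact Or.inr (Or.inl (Or.inr h))
      · exact Or.inr (Or.inr h)
  obtain ⟨Lf, lam, hmet⟩ := finI Δ T hT hV D B C hBC γ G K dl lv hHost.stk Sp ψ side'
    (by
      intro a ha b hb hab
      rcases Finset.mem_union.1 ha with ha | ha <;> rcases Finset.mem_union.1 hb with hb | hb
      · exact hTree.tc.sep a ha b hb hab
      · exact hHpTT b hb a ha
      · intro h
        exact hHpTT a ha b hb (T.mem_ball_comm.1 h)
      · exact hPl.sep a ha b hb hab)
    hψinj
    (by
      intro v hvB hvC
      rw [hmemIm]
      by_cases h1 : v ∈ S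
      · rw [hS, Finset.mem_union, Finset.mem_union] at h1
        tauto
      · refine Or.inr (Or.inr (Or.inr ?_))
        rw [hE', Finset.mem_sdiff, Finset.mem_union, Finset.mem_union]
        exact ⟨Finset.mem_univ _, by tauto⟩)
    (by
      intro v hv hvBC
      rw [hmemIm] at hv
      rw [Finset.mem_union] at hvBC
      rcases hv with h | h | h | h
      · rcases Finset.mem_union.1 h with h' | h'
        · exact hHost.cuts.sub true (hF₁F h')
        · exact hHost.cuts.sub false (hF₀F h')
      · exact Finset.mem_union_left _ (hHost.UG (hU'U h))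
      · exact Finset.mem_union_left _ (hHost.WG (hW'W h))
      · have := hEBC v h
        tauto)
    (by
      intro x y hxy hx hy
      have hx' : x ∉ TT := fun h => hx (Finset.mem_union_left _ h)
      have hy' : y ∉ TT := fun h => hy (Finset.mem_union_left _ h)
      have hx'' : x ∉ Hp := fun h => hx (Finset.mem_union_right _ h)
      have hy'' : y ∉ Hp := fun h => hy (Finset.mem_union_right _ h)
      rcases hTree.tc.arc x y hxy with h | h | h
      · exact hPl.arc x y hxy hx'' hy'' h
      · exact absurd h hx'
      · exact absurd h hy')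
    (by
      intro x hx s y hxy
      rcases Finset.mem_union.1 hx with hx | hx
      · -- cut vertices
        rw [hside x hx y (PTree.Nb.mem_ball (aip_adj_nb hxy))]
        obtain ⟨δ, hxδ, hψδ⟩ : ∃ δ, x ∈ Tc δ ∧ ψ x ∈ F δ := by
          rw [hψe₁ x hx]
          rcases Finset.mem_union.1 hx with h | h
          · exact ⟨true, h, by rw [hfe₁ x h]; exact hF₁F (hf₁F x h)⟩
          · exact ⟨false, h, by rw [hfe₂ x h]; exact hF₀F (hf₂F x h)⟩
        cases hkd : kd δ s with
        | true =>
          rw [hTree.tc.con δ x hxδ s hkd y hxy]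
          exact hHost.cuts.con δ _ hψδ s
        | false => exact hHost.cuts.fre δ _ hψδ s hkd _
      · -- vertices on segments
        rw [hPl.nb x hx s y hxy, hψe₂ x hx]
        have h1 : φ x ∈ H := by
          rw [← hPl.image]
          exact Finset.mem_image_of_mem _ hx
        rw [hH, Finset.mem_union, Finset.mem_union, Finset.mem_union, Finset.mem_union] at h1
        rcases h1 with (((h | h) | h) | h) | h
        · have h2 := (Finset.mem_sdiff.1 h).1
          rw [hut1 _ h2]
          have h3 := hHost.cuts.con true _ (hF₁F h2) s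
          rw [Bool.true_xor] at h3
          exact h3
        · have h2 := (Finset.mem_sdiff.1 h).1
          rw [hut0 _ h2]
          have h3 := hHost.cuts.con false _ (hF₀F h2) s
          rw [Bool.false_xor] at h3
          exact h3
        · rw [hutU _ h]
          cases s with
          | true => exact hHost.Uus _ (hU'U h)
          | false =>
            left
            have h3 := hHost.fr (φ x) false
            rw [(hHost.Ulab _ (hU'U h)).2] at h3
            exact h3
        · rw [hutW _ h]
          cases s with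
          | true =>
            left
            have h3 := hHost.fr (φ x) true
            rw [(hHost.Wlab _ (hW'W h)).2] at h3
            exact h3
          | false => exact hHost.Wus _ (hW'W h)
        · rw [hutE _ h]
          exact Or.inl (hHost.fr _ s))
    (by
      have h1 : B \ Sp.image ψ = B' := by
        ext v
        have hvS : v ∈ S ↔ (v ∈ F' ∨ v ∈ U') ∨ v ∈ W' := by
          rw [hS, Finset.mem_union, Finset.mem_union]
        constructor
        · intro h0
          obtain ⟨h1, h2⟩ := Finset.mem_sdiff.1 h0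
          rw [hmemIm] at h2
          refine Finset.mem_sdiff.2 ⟨h1, ?_⟩
          rw [hvS]
          tauto
        · intro h0
          obtain ⟨h1, h2⟩ := Finset.mem_sdiff.1 h0
          rw [hvS] at h2
          refine Finset.mem_sdiff.2 ⟨h1, ?_⟩
          rw [hmemIm]
          rintro (h | h | h | h)
          · exact h2 (Or.inl (Or.inl h))
          · exact h2 (Or.inl (Or.inr h))
          · exact h2 (Or.inr h)
          · exact (hEBC v h).1 h1
      rw [h1]
      have h2 : (univ.filter fun y => y ∉ Hp ∧ side' y = true).card =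
          (univ.filter fun y => y ∉ Sp ∧ side' y = true).card + tT := by
        rw [htT, ← Finset.card_union_of_disjoint]
        · congr 1
          ext v
          rw [Finset.mem_filter, Finset.mem_union, Finset.mem_filter, Finset.mem_filter]
          constructor
          · rintro ⟨_, h3, h4⟩
            by_cases h5 : v ∈ TT
            · right
              refine ⟨h5, ?_⟩
              rw [← hside v h5 v (T.self_mem_ball 1 v)]
              exact h4
            · left
              refine ⟨Finset.mem_univ _, ?_, h4⟩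
              intro h6
              rcases Finset.mem_union.1 h6 with h7 | h7
              · exact h5 h7
              · exact h3 h7
          · rintro (⟨_, h3, h4⟩ | ⟨h3, h4⟩)
            · exact ⟨Finset.mem_univ _, fun h => h3 (Finset.mem_union_right _ h), h4⟩
            · refine ⟨Finset.mem_univ _, fun h => Finset.disjoint_left.1 hTTHp h3 h, ?_⟩
              rw [hside v h3 v (T.self_mem_ball 1 v)]
              exact h4
        · rw [Finset.disjoint_left]
          intro v hv hv'
          rw [Finset.mem_filter] at hv hv'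
          exact hv.2.1 (Finset.mem_union_left _ hv'.1)
      have h3 := hPl.count
      have h4 : (H.filter fun u => ut u false = true ∧ ut u true = true).card = h11 := rfl
      have h5 : (H.filter fun u => ut u false = true ∧ ut u true = false).card = p := rfl
      rw [h4, h5, h2] at h3
      push_cast at h3
      have h6 : ((univ.filter fun y => y ∉ Sp ∧ side' y = true).card : ℤ) = (B'.card : ℤ) := by
        rw [hd] at h3
        linarith
      exact_mod_cast h6)
  refine ⟨Sp, ψ, side', Lf, lam, ?_, hmet⟩
  have h1 : Sp.card ≤ 2 * k + H.card := by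
    have a1 := Finset.card_union_le TT Hp
    have a2 : Hp.card = H.card := by
      rw [← hPl.image, Finset.card_image_of_injOn hPl.inj]
    rw [← hSp] at a1
    omega
  have h2 : (Sp.card : ℝ) ≤ 2 * k + H.card := by exact_mod_cast h1
  linarith

end

end OT
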