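import Pool.Agent.Helper62.EX.TB
import Pool.Agent.Helper63.EX.HL
import Pool.Agent.Helper34.EX.PK

/-!
# MP_2857a5_co : the layout lemma
-/

set_option autoImplicit false

open Finset
open scoped Classical

namespace OT

noncomputable section

variable {n : ℕ}

/-! ### Numbers -/

lemma lay_min3 (f : Fin 6 → ℤ) (a b c : Fin 6) :
    ∃ j, (j = a ∨ j = b ∨ j = c) ∧ 3 * f j ≤ f a + f b + f c := by
  by_cases h1 : f a ≤ f b ∧ f a ≤ f c
  · exact ⟨a, Or.inl rfl, by linarith [h1.1, h1.2]⟩
  · by_cases h2 : f b ≤ f a ∧ f b ≤ f c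
    · exact ⟨b, Or.inr (Or.inl rfl), by linarith [h2.1, h2.2]⟩
    · refine ⟨c, Or.inr (Or.inr rfl), ?_⟩
      have h3 : f c ≤ f a ∧ f c ≤ f b := by
        constructor
        · by_contra h
          push Not at h
          by_cases h4 : f a ≤ f b
          · exact h1 ⟨h4, h.le⟩
          · exact h2 ⟨by linarith, by linarith⟩
        · by_contra h
          push Not at h
          by_cases h4 : f a ≤ f b
          · exact h1 ⟨h4, by linarith⟩
          · exact h2 ⟨by linarith, h.le⟩
      linarith [h3.1, h3.2]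

/-- The numbers to be harvested. -/
lemma lay_num {V : Type} (W : Finset V) (q : V → ℤ) (A : ℤ) (hA : 0 ≤ A)
    (hq : ∑ r ∈ W, q r = A) (tp : Fin 6 → Finset V) (htp : ∀ i, tp i ⊆ W)
    (hdis : ∀ i j, i ≠ j → Disjoint (tp i) (tp j)) :
    ∃ (j₁ j₀ : Fin 6) (m : V → ℤ), (j₁ : ℕ) < 3 ∧ 3 ≤ (j₀ : ℕ) ∧ (∀ r, 0 ≤ m r) ∧
      (∀ r ∈ tp j₁, m r = 0) ∧ (∀ r ∈ tp j₀, m r = 0) ∧
      (∀ r, m r = 0 ∨ 4 * m r ≤ 3 * q r) ∧
      A - 2 * W.card ≤ 2 * ∑ r ∈ W, m r ∧ 2 * ∑ r ∈ W, m r ≤ A := by
  set qp : V → ℤ := fun r => max (q r) 0 with hqp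
  have hqp0 : ∀ r, 0 ≤ qp r := fun r => le_max_right _ _
  have hqle : ∀ r, q r ≤ qp r := fun r => le_max_left _ _
  set s : Fin 6 → ℤ := fun j => ∑ r ∈ tp j, qp r with hs
  obtain ⟨j₁, hj₁, hs₁⟩ := lay_min3 s 0 1 2
  obtain ⟨j₀, hj₀, hs₀⟩ := lay_min3 s 3 4 5
  have hj₁' : (j₁ : ℕ) < 3 := by rcases hj₁ with h | h | h <;> rw [h] <;> decide
  have hj₀' : 3 ≤ (j₀ : ℕ) := by rcases hj₀ with h | h | h <;> rw [h] <;> decide
  have hne : j₁ ≠ j₀ := by
    intro h
    rw [h] at hj₁'
    omega
  set Tot : ℤ := ∑ r ∈ W, qp r with hTot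
  have hTotA : A ≤ Tot := by
    rw [← hq]
    exact Finset.sum_le_sum fun r _ => hqle r
  have hsum6 : ∑ j, s j ≤ Tot := by
    rw [hs]
    have : ∑ j, ∑ r ∈ tp j, qp r = ∑ r ∈ univ.biUnion tp, qp r := by
      rw [Finset.sum_biUnion]
      intro i _ j _ hij
      exact hdis i j hij
    simp only [this]
    apply Finset.sum_le_sum_of_subset_of_nonneg
    · intro r hr
      rw [Finset.mem_biUnion] at hr
      obtain ⟨j, _, hj⟩ := hr
      exact htp j hj
    · intro i _ _
      exact hqp0 i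
  have hsum6' : s 0 + s 1 + s 2 + (s 3 + s 4 + s 5) ≤ Tot := by
    have : ∑ j, s j = s 0 + s 1 + s 2 + (s 3 + s 4 + s 5) := by
      simp only [Fin.sum_univ_succ, Fin.sum_univ_zero]
      simp
      ring
    rw [← this]
    exact hsum6
  set U : Finset V := W \ (tp j₁ ∪ tp j₀) with hU
  set S : ℤ := ∑ r ∈ U, qp r with hS
  have hS0 : 0 ≤ S := Finset.sum_nonneg fun r _ => hqp0 r
  have hST : S = Tot - (s j₁ + s j₀) := by
    have h1 : tp j₁ ∪ tp j₀ ⊆ W := Finset.union_subset (htp _) (htp _)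
    have h2 := Finset.sum_sdiff (f := qp) h1
    rw [Finset.sum_union (hdis _ _ hne)] at h2
    linarith
  have hSA : 2 * A ≤ 3 * S := by linarith
  set m : V → ℤ := fun r => if r ∈ U then A * qp r / (2 * S) else 0 with hm
  have hm0 : ∀ r, 0 ≤ m r := by
    intro r
    simp only [hm]
    split_ifs
    · exact Int.ediv_nonneg (mul_nonneg hA (hqp0 r)) (by linarith)
    · exact le_rfl
  have hsumU : ∑ r ∈ W, m r = ∑ r ∈ U, A * qp r / (2 * S) := by
    simp only [hm]
    rw [← Finset.sum_filter]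
    congr 1
    ext r
    rw [Finset.mem_filter]
    constructor
    · exact fun h => h.2
    · exact fun h => ⟨(Finset.mem_sdiff.1 h).1, h⟩
  refine ⟨j₁, j₀, m, hj₁', hj₀', hm0, ?_, ?_, ?_, ?_, ?_⟩
  · intro r hr
    simp only [hm]
    rw [if_neg]
    rw [hU, Finset.mem_sdiff, Finset.mem_union]
    exact fun h => h.2 (Or.inl hr)
  · intro r hr
    simp only [hm]
    rw [if_neg]
    rw [hU, Finset.mem_sdiff, Finset.mem_union]
    exact fun h => h.2 (Or.inr hr)
  · intro r
    by_cases hr : r ∈ U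
    · by_cases hqr : q r ≤ 0
      · left
        simp only [hm]
        have : qp r = 0 := max_eq_right hqr
        rw [if_pos hr, this, mul_zero, Int.zero_ediv]
      · push Not at hqr
        have hqe : qp r = q r := max_eq_left hqr.le
        have hmr : m r = A * q r / (2 * S) := by
          simp only [hm]
          rw [if_pos hr, hqe]
        rcases hS0.eq_or_lt with h | h
        · left
          rw [hmr, ← h, mul_zero, Int.ediv_zero]
        · right
          have h1 : 2 * S * m r ≤ A * q r := by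
            rw [hmr, mul_comm]
            exact Int.ediv_mul_le _ (by linarith)
          have h2 : S * (4 * m r) ≤ S * (3 * q r) := by
            calc S * (4 * m r) = 2 * (2 * S * m r) := by ring
              _ ≤ 2 * (A * q r) := by linarith
              _ = (2 * A) * q r := by ring
              _ ≤ (3 * S) * q r := mul_le_mul_of_nonneg_right hSA hqr.le
              _ = S * (3 * q r) := by ring
          exact le_of_mul_le_mul_left h2 h
    · left
      simp only [hm]
      rw [if_neg hr]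
  · rw [hsumU]
    rcases hS0.eq_or_lt with h | h
    · have h0 : A = 0 := by linarith
      have h1 : ∀ r ∈ U, A * qp r / (2 * S) = 0 := by
        intro r _
        rw [← h, mul_zero, Int.ediv_zero]
      rw [Finset.sum_congr rfl h1, Finset.sum_const_zero, h0]
      have h2 : (0 : ℤ) ≤ (W.card : ℤ) := Int.natCast_nonneg _
      linarith
    · have h1 : A * S - 2 * S * U.card ≤ 2 * S * ∑ r ∈ U, A * qp r / (2 * S) := by
        have h2 : ∀ r ∈ U, A * qp r - 2 * S ≤ 2 * S * (A * qp r / (2 * S)) := by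
          intro r _
          have h3 := Int.emod_add_mul_ediv (A * qp r) (2 * S)
          have h4 := Int.emod_lt_of_pos (A * qp r) (by linarith : 0 < 2 * S)
          linarith
        have h5 := Finset.sum_le_sum h2
        rw [Finset.sum_sub_distrib, Finset.sum_const, nsmul_eq_mul, ← Finset.mul_sum,
          ← Finset.mul_sum] at h5
        linarith
      have h2 : (U.card : ℤ) ≤ W.card := by
        exact_mod_cast Finset.card_le_card Finset.sdiff_subset
      have h3 : S * (A - 2 * W.card) ≤ S * (2 * ∑ r ∈ U, A * qp r / (2 * S)) := by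
        nlinarith
      exact le_of_mul_le_mul_left h3 h
  · rw [hsumU]
    rcases hS0.eq_or_lt with h | h
    · have h1 : ∀ r ∈ U, A * qp r / (2 * S) = 0 := by
        intro r _
        rw [← h, mul_zero, Int.ediv_zero]
      rw [Finset.sum_congr rfl h1, Finset.sum_const_zero]
      linarith
    · have h1 : 2 * S * ∑ r ∈ U, A * qp r / (2 * S) ≤ A * S := by
        have h2 : ∀ r ∈ U, 2 * S * (A * qp r / (2 * S)) ≤ A * qp r := by
          intro r _
          rw [mul_comm]
          exact Int.ediv_mul_le _ (by linarith)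
        have h5 := Finset.sum_le_sum h2
        rw [← Finset.mul_sum, ← Finset.mul_sum] at h5
        exact h5
      have h3 : S * (2 * ∑ r ∈ U, A * qp r / (2 * S)) ≤ S * A := by
        nlinarith
      exact le_of_mul_le_mul_left h3 h

/-! ### The nearest marked ancestor -/

/-- The nearest ancestor in `W`. -/
def lay_tau (T : PTree n) (W : Finset (Fin n)) (v : Fin n) : Fin n :=
  if h : (W.filter fun r => T.Le r v).Nonempty then (W.filter fun r => T.Le r v).max' h else v

lemma lay_tau_spec (T : PTree n) (W : Finset (Fin n)) (z : Fin n) (hz : (z : ℕ) = 0) (hzW : z ∈ W)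
    (v : Fin n) : lay_tau T W v ∈ W ∧ T.Le (lay_tau T W v) v ∧
      ∀ r ∈ W, T.Le r v → T.Le r (lay_tau T W v) := by
  have h : (W.filter fun r => T.Le r v).Nonempty :=
    ⟨z, by rw [Finset.mem_filter]; exact ⟨hzW, T.le_root z hz v⟩⟩
  have h1 : lay_tau T W v = (W.filter fun r => T.Le r v).max' h := by
    unfold lay_tau
    rw [dif_pos h]
  have h2 := Finset.max'_mem _ h
  rw [← h1, Finset.mem_filter] at h2
  refine ⟨h2.1, h2.2, ?_⟩
  intro r hr hrv
  rcases PTree.Le.total hrv h2.2 with h3 | h3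
  · exact h3
  · have h4 : r ≤ lay_tau T W v := by
      rw [h1]
      exact Finset.le_max' _ _ (by rw [Finset.mem_filter]; exact ⟨hr, hrv⟩)
    have h5 := h3.le
    have h6 : r = lay_tau T W v := le_antisymm h4 h5
    rw [← h6]
    exact PTree.Le.refl T r

lemma lay_tau_eq (T : PTree n) (W : Finset (Fin n)) (z : Fin n) (hz : (z : ℕ) = 0) (hzW : z ∈ W)
    (v r : Fin n) (hr : r ∈ W) (hrv : T.Le r v) (hmax : ∀ s ∈ W, T.Le s v → T.Le s r) :
    lay_tau T W v = r := by
  obtain ⟨h1, h2, h3⟩ := lay_tau_spec T W z hz hzW v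
  exact PTree.Le.antisymm (hmax _ h1 h2) (h3 r hr hrv)

lemma lay_tau_self (T : PTree n) (W : Finset (Fin n)) (z : Fin n) (hz : (z : ℕ) = 0)
    (hzW : z ∈ W) (r : Fin n) (hr : r ∈ W) : lay_tau T W r = r :=
  lay_tau_eq T W z hz hzW r r hr (PTree.Le.refl T r) fun _ _ h => h

lemma lay_tau_par (T : PTree n) (W : Finset (Fin n)) (z : Fin n) (hz : (z : ℕ) = 0)
    (hzW : z ∈ W) (v : Fin n) (hv : v ∉ W) : lay_tau T W (T.par v) = lay_tau T W v := by
  have hv0 : (v : ℕ) ≠ 0 := by
    intro h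
    have : v = z := Fin.ext (h.trans hz.symm)
    exact hv (this ▸ hzW)
  obtain ⟨h1, h2, h3⟩ := lay_tau_spec T W z hz hzW v
  apply lay_tau_eq T W z hz hzW _ _ h1
  · rcases PTree.le_iff.1 h2 with h | ⟨_, h⟩
    · rw [h] at h1
      exact absurd h1 hv
    · exact h
  · intro s hs hsv
    exact h3 s hs (PTree.le_iff.2 (Or.inr ⟨hv0, hsv⟩))

/-! ### Marked vertices -/

lemma lay_ch_ball {T : PTree n} {p c : Fin n} (h : c ∈ T.ch p) : c ∈ T.ball 1 p := by
  rw [PTree.ch, Finset.mem_filter] at h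
  exact PTree.Nb.mem_ball (Or.inl h.2)

lemma lay_tops_ball {T : PTree n} {far : Fin n → Bool} {b : Bool} {t r : Fin n}
    (h : r ∈ T.tops far b t) : r ∈ T.ball 1 t := by
  unfold PTree.tops at h
  split_ifs at h with hb
  · rw [PTree.far, Finset.mem_filter] at h
    exact lay_ch_ball h.1
  · rw [Finset.mem_singleton] at h
    rw [h]
    exact T.self_mem_ball 1 t

variable (T : PTree n) (pos far : Fin n → Bool) (R : ℕ) (b : Fin 6 → Bool) (t : Fin 6 → Fin n)
  (z : Fin n)

/-- All tops. -/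
def lay_Tops : Finset (Fin n) := univ.biUnion fun i => T.tops far (b i) (t i)

/-- The marked vertices. -/
def lay_W : Finset (Fin n) := insert z (lay_Tops T far b t)

/-- The forbidden vertices. -/
def lay_Z : Finset (Fin n) := univ.biUnion fun i : Fin 6 => T.ball (R + 2) (t i)

/-- The first flip. -/
def lay_F1 : Finset (Fin n) := univ.filter fun v =>
  ∃ i : Fin 6, (i : ℕ) < 3 ∧ lay_tau T (lay_W T far b t z) v ∈ T.tops far (b i) (t i)

/-- The sides after the first flip. -/
def lay_pos1 : Fin n → Bool := fun v => xor (pos v) (decide (v ∈ lay_F1 T far b t z))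

variable {T pos far R b t z} {M : Finset (Fin n)} {η' : ℝ}

lemma lay_mem_Tops {r : Fin n} : r ∈ lay_Tops T far b t ↔ ∃ i, r ∈ T.tops far (b i) (t i) := by
  simp [lay_Tops]

lemma lay_mem_W {r : Fin n} : r ∈ lay_W T far b t z ↔ r = z ∨ r ∈ lay_Tops T far b t := by
  simp [lay_W]

lemma lay_mem_Z {r : Fin n} : r ∈ lay_Z T R t ↔ ∃ i, r ∈ T.ball (R + 2) (t i) := by
  simp [lay_Z]

lemma lay_Z_of_ball {k : ℕ} (hk : k ≤ R + 2) {i : Fin 6} {u : Fin n} (h : u ∈ T.ball k (t i)) :
    u ∈ lay_Z T R t := lay_mem_Z.2 ⟨i, T.ball_mono hk _ h⟩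

lemma lay_tops_inj (hP : Parts T pos far (R + 2) M η' b t) {i j : Fin 6} {u : Fin n} {k l : ℕ}
    (hkl : k + l ≤ R + 2) (hi : u ∈ T.ball k (t i)) (hj : u ∈ T.ball l (t j)) : i = j := by
  by_contra hne
  exact hP.sep i j hne (T.ball_mono hkl _ (T.ball_trans hi (T.mem_ball_comm.1 hj)))

lemma lay_Tops_Z {r : Fin n} (h : r ∈ lay_Tops T far b t) : r ∈ lay_Z T R t := by
  obtain ⟨i, hi⟩ := lay_mem_Tops.1 h
  exact lay_Z_of_ball (by omega) (lay_tops_ball hi)

lemma lay_tops_ne (hP : Parts T pos far (R + 2) M η' b t) (hz : (z : ℕ) = 0) {i : Fin 6}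
    {u : Fin n} {k : ℕ} (hk : k ≤ R + 2) (hi : u ∈ T.ball k (t i)) : u ≠ z := by
  rintro rfl
  exact hP.root i u hz (T.ball_mono hk _ (T.mem_ball_comm.1 hi))

/-- Below a marked vertex nothing changes at unmarked vertices. -/
lemma lay_F1_par (hz : (z : ℕ) = 0) {v : Fin n} (hv : v ∉ lay_W T far b t z) :
    (T.par v ∈ lay_F1 T far b t z ↔ v ∈ lay_F1 T far b t z) := by
  have hzW : z ∈ lay_W T far b t z := lay_mem_W.2 (Or.inl rfl)
  rw [lay_F1, Finset.mem_filter, Finset.mem_filter, lay_tau_par T _ z hz hzW v hv]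
  simp

lemma lay_F1_top (hP : Parts T pos far (R + 2) M η' b t) (hz : (z : ℕ) = 0) {i : Fin 6}
    {r : Fin n} (h : r ∈ T.tops far (b i) (t i)) : r ∈ lay_F1 T far b t z ↔ (i : ℕ) < 3 := by
  have hzW : z ∈ lay_W T far b t z := lay_mem_W.2 (Or.inl rfl)
  have hrW : r ∈ lay_W T far b t z := lay_mem_W.2 (Or.inr (lay_mem_Tops.2 ⟨i, h⟩))
  rw [lay_F1, Finset.mem_filter, lay_tau_self T _ z hz hzW r hrW]
  constructor
  · rintro ⟨_, j, hj, hrj⟩
    have : j = i := lay_tops_inj hP (by omega) (lay_tops_ball hrj) (lay_tops_ball h)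
    rw [← this]
    exact hj
  · intro hi
    exact ⟨Finset.mem_univ _, i, hi, h⟩

lemma lay_alt (hz : (z : ℕ) = 0) (hAlt : T.Alt pos far ∅) :
    T.Alt (lay_pos1 T pos far b t z) far (lay_Z T R t) := by
  intro v hv0 hvZ
  have hvW : v ∉ lay_W T far b t z := by
    intro h
    rcases lay_mem_W.1 h with h | h
    · rw [h] at hv0
      exact hv0 hz
    · exact hvZ (lay_Tops_Z h)
  rcases hAlt v hv0 (Finset.notMem_empty v) with h | h
  · exact Or.inl h
  · right
    unfold lay_pos1
    have h1 : decide (T.par v ∈ lay_F1 T far b t z) = decide (v ∈ lay_F1 T far b t z) := by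
      rw [decide_eq_decide]
      exact lay_F1_par hz hvW
    rw [h1]
    intro h2
    apply h
    revert h2
    cases pos v <;> cases pos (T.par v) <;> cases decide (v ∈ lay_F1 T far b t z) <;> simp

/-! ### Gluing -/

/-- The final flip. -/
def lay_F (T : PTree n) (far : Fin n → Bool) (b : Fin 6 → Bool) (t : Fin 6 → Fin n) (z : Fin n)
    (G : Fin n → Finset (Fin n)) : Finset (Fin n) :=
  univ.filter fun v => ¬ (v ∈ lay_F1 T far b t z ↔ v ∈ G (lay_tau T (lay_W T far b t z) v))

/-- The single boundary vertices. -/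
def lay_Q (T : PTree n) (far : Fin n → Bool) (b : Fin 6 → Bool) (t : Fin 6 → Fin n) (z : Fin n)
    (G Q : Fin n → Finset (Fin n)) : Finset (Fin n) :=
  (univ.filter fun v => v ∈ Q (lay_tau T (lay_W T far b t z) v)) ∪
    univ.filter fun v => ∃ i, b i = false ∧ v = t i ∧ v ∈ T.bd (lay_F T far b t z G)

/-- The groups. -/
def lay_P (T : PTree n) (far : Fin n → Bool) (b : Fin 6 → Bool) (t : Fin 6 → Fin n) (z : Fin n)
    (G P : Fin n → Finset (Fin n)) : Finset (Fin n) :=
  (univ.filter fun v => v ∈ P (lay_tau T (lay_W T far b t z) v)) ∪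
    univ.filter fun v => ∃ i, b i = true ∧ v = t i ∧
      ∃ c ∈ T.ch v, far c = true ∧ c ∈ T.bd (lay_F T far b t z G)

lemma lay_bd (hz : (z : ℕ) = 0) (G : Fin n → Finset (Fin n)) {v : Fin n}
    (hv : v ∉ lay_W T far b t z) : v ∈ T.bd (lay_F T far b t z G) ↔
      v ∈ T.bdIn (lay_tau T (lay_W T far b t z) v) (G (lay_tau T (lay_W T far b t z) v)) := by
  have hzW : z ∈ lay_W T far b t z := lay_mem_W.2 (Or.inl rfl)
  have hv0 : (v : ℕ) ≠ 0 := by
    intro h
    have : v = z := Fin.ext (h.trans hz.symm)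
    exact hv (this ▸ hzW)
  obtain ⟨h1, h2, h3⟩ := lay_tau_spec T _ z hz hzW v
  have h4 : v ≠ lay_tau T (lay_W T far b t z) v := by
    intro h
    rw [← h] at h1
    exact hv h1
  have h5 := lay_tau_par T _ z hz hzW v hv
  have h6 := lay_F1_par (T := T) (far := far) (b := b) (t := t) hz hv
  rw [PTree.bd, PTree.bdIn, Finset.mem_filter, Finset.mem_filter, PTree.mem_sub, lay_F,
    Finset.mem_filter, Finset.mem_filter, h5, h6]
  simp only [Finset.mem_univ, true_and]
  constructor
  · rintro ⟨_, h⟩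
    exact ⟨h2, h4, by tauto⟩
  · rintro ⟨_, _, h⟩
    exact ⟨hv0, by tauto⟩

lemma lay_F_top (hP : Parts T pos far (R + 2) M η' b t) (hz : (z : ℕ) = 0)
    (G : Fin n → Finset (Fin n)) (hG : ∀ r ∈ lay_W T far b t z, r ∉ G r) {i : Fin 6}
    {r : Fin n} (h : r ∈ T.tops far (b i) (t i)) :
    r ∈ lay_F T far b t z G ↔ (i : ℕ) < 3 := by
  have hzW : z ∈ lay_W T far b t z := lay_mem_W.2 (Or.inl rfl)
  have hrW : r ∈ lay_W T far b t z := lay_mem_W.2 (Or.inr (lay_mem_Tops.2 ⟨i, h⟩))
  rw [lay_F, Finset.mem_filter, lay_tau_self T _ z hz hzW r hrW, lay_F1_top hP hz h]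
  have := hG r hrW
  simp only [Finset.mem_univ, true_and]
  tauto

lemma lay_glue (hP : Parts T pos far (R + 2) M η' b t) (hz : (z : ℕ) = 0)
    (G P Q : Fin n → Finset (Fin n))
    (hL : ∀ r ∈ lay_W T far b t z,
      LayIn T (lay_pos1 T pos far b t z) far R (lay_Z T R t) r (G r) (P r) (Q r)) :
    Layout T pos far R (lay_F T far b t z G) (lay_P T far b t z G P) (lay_Q T far b t z G Q) := by
  have hzW : z ∈ lay_W T far b t z := lay_mem_W.2 (Or.inl rfl)
  set W := lay_W T far b t z with hW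
  set τ := lay_tau T W with hτ
  have hspec := lay_tau_spec T W z hz hzW
  have hτW : ∀ v, τ v ∈ W := fun v => (hspec v).1
  have hG : ∀ r ∈ W, r ∉ G r := fun r hr => (hL r hr).top
  have hroot : ∀ v : Fin n, (v : ℕ) = 0 → v = z := fun v h => Fin.ext (h.trans hz.symm)
  have hbdW : ∀ v, v ∉ W → (v ∈ T.bd (lay_F T far b t z G) ↔ v ∈ T.bdIn (τ v) (G (τ v))) :=
    fun v hv => lay_bd hz G hv
  have hbd0 : ∀ v ∈ T.bd (lay_F T far b t z G), (v : ℕ) ≠ 0 := by
    intro v hv
    rw [PTree.bd, Finset.mem_filter] at hv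
    exact hv.2.1
  have hTopsW : ∀ v ∈ W, v ≠ z → ∃ i, v ∈ T.tops far (b i) (t i) := by
    intro v hv hvz
    rcases lay_mem_W.1 hv with h | h
    · exact absurd h hvz
    · exact lay_mem_Tops.1 h
  -- the group at `t i`
  have hfar : ∀ i, b i = true → ∀ c ∈ T.ch (t i), far c = true → c ∈ T.tops far (b i) (t i) := by
    intro i hi c hc hcf
    rw [PTree.tops, if_pos hi, PTree.far, Finset.mem_filter]
    exact ⟨hc, hcf⟩
  have hchpar : ∀ p, ∀ c ∈ T.ch p, T.par c = p ∧ (c : ℕ) ≠ 0 := by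
    intro p c hc
    rw [PTree.ch, Finset.mem_filter] at hc
    exact ⟨hc.2.2, hc.2.1⟩
  have htiW : ∀ i, b i = true → t i ∉ W := by
    intro i hi h
    have h1 : t i ≠ z := lay_tops_ne hP hz (Nat.zero_le _) (T.self_mem_ball 0 (t i))
    obtain ⟨j, hj⟩ := hTopsW _ h h1
    have h2 : i = j := lay_tops_inj hP (by omega : 0 + 1 ≤ R + 2) (T.self_mem_ball 0 (t i))
      (lay_tops_ball hj)
    rw [← h2, PTree.tops, if_pos hi, PTree.far, Finset.mem_filter] at hj
    obtain ⟨h3, h4⟩ := hchpar _ _ hj.1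
    have h5 := T.lt (t i) h4
    rw [h3] at h5
    exact lt_irrefl _ h5
  -- boundary vertices of the inner layouts are not close to the `t i`
  have hawayQ : ∀ r ∈ W, ∀ v ∈ Q r, v ∉ lay_Z T R t := fun r hr v hv =>
    ((hL r hr).away v (Finset.mem_union_right _ hv)).1
  have hawayP : ∀ r ∈ W, ∀ v ∈ P r, v ∉ lay_Z T R t := fun r hr v hv =>
    ((hL r hr).away v (Finset.mem_union_left _ hv)).1
  have hnbZ : ∀ i, ∀ v, v ∈ T.ball 1 (t i) → v ∈ lay_Z T R t := fun i v hv =>
    lay_Z_of_ball (by omega) hv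
  have hnotW : ∀ v, v ∉ lay_Z T R t → v ≠ z → v ∉ W := by
    intro v hv hvz h
    rcases lay_mem_W.1 h with h | h
    · exact hvz h
    · exact hv (lay_Tops_Z h)
  -- all tops of a group behave in the same way
  have hgrp : ∀ i, b i = true → ∀ c ∈ T.ch (t i), far c = true →
      c ∈ T.bd (lay_F T far b t z G) → ∀ c' ∈ T.ch (t i), far c' = true →
      c' ∈ T.bd (lay_F T far b t z G) := by
    intro i hi c hc hcf hcb c' hc' hcf'
    have h1 := lay_F_top hP hz G hG (hfar i hi c hc hcf)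
    have h2 := lay_F_top hP hz G hG (hfar i hi c' hc' hcf')
    rw [PTree.bd, Finset.mem_filter, (hchpar _ _ hc).1] at hcb
    rw [PTree.bd, Finset.mem_filter, (hchpar _ _ hc').1]
    refine ⟨Finset.mem_univ _, (hchpar _ _ hc').2, ?_⟩
    rw [h2, ← h1]
    exact hcb.2.2
  refine ⟨?_, ?_, ?_, ?_, ?_, ?_⟩
  · -- bd
    intro v hv
    by_cases hvW : v ∈ W
    · have hvz : v ≠ z := by
        rintro rfl
        exact hbd0 _ hv hz
      obtain ⟨i, hi⟩ := hTopsW v hvW hvz
      cases hb : b i with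
      | false =>
        left
        rw [PTree.tops, if_neg (by rw [hb]; decide), Finset.mem_singleton] at hi
        rw [lay_Q, Finset.mem_union]
        right
        rw [Finset.mem_filter]
        exact ⟨Finset.mem_univ _, i, hb, hi, hv⟩
      | true =>
        right
        rw [PTree.tops, if_pos hb, PTree.far, Finset.mem_filter] at hi
        refine ⟨hi.2, ?_⟩
        rw [(hchpar _ _ hi.1).1, lay_P, Finset.mem_union]
        right
        rw [Finset.mem_filter]
        exact ⟨Finset.mem_univ _, i, hb, rfl, v, hi.1, hi.2, hv⟩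
    · rcases (hL _ (hτW v)).bd v ((hbdW v hvW).1 hv) with h | ⟨h, h'⟩
      · left
        rw [lay_Q, Finset.mem_union, Finset.mem_filter]
        exact Or.inl ⟨Finset.mem_univ _, h⟩
      · right
        refine ⟨h, ?_⟩
        rw [lay_P, Finset.mem_union, Finset.mem_filter]
        left
        refine ⟨Finset.mem_univ _, ?_⟩
        rw [lay_tau_par T W z hz hzW v hvW]
        exact h'
  · -- sgl
    intro v hv
    rw [lay_Q, Finset.mem_union, Finset.mem_filter, Finset.mem_filter] at hv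
    rcases hv with ⟨_, hv⟩ | ⟨_, i, hi, rfl, hv⟩
    · have hvZ := hawayQ _ (hτW v) v hv
      obtain ⟨h1, h2⟩ := (hL _ (hτW v)).sgl v hv
      have h1' := h1
      rw [PTree.bdIn, Finset.mem_filter, PTree.mem_sub] at h1'
      have hvz : v ≠ z := by
        rintro rfl
        have h3 := h1'.1.le
        have h4 : ((lay_tau T W v : Fin n) : ℕ) = 0 := by
          have : ((lay_tau T W v : Fin n) : ℕ) ≤ (v : ℕ) := h3
          omega
        exact h1'.2.1 (hroot _ h4).symm
      have hvW := hnotW v hvZ hvz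
      refine ⟨(hbdW v hvW).2 h1, ?_⟩
      rw [lay_pos1] at h2
      have h3 : (v ∈ lay_F T far b t z G) ↔ ¬ (v ∈ lay_F1 T far b t z ↔ v ∈ G (τ v)) := by
        rw [lay_F, Finset.mem_filter]
        simp only [Finset.mem_univ, true_and]
        exact Iff.rfl
      by_cases ha : v ∈ lay_F1 T far b t z <;> by_cases hb : v ∈ G (τ v) <;>
        simp only [h3, ha, hb] at h2 ⊢ <;> revert h2 <;> cases pos v <;> simp
    · refine ⟨hv, ?_⟩
      have hti : t i ∈ T.tops far (b i) (t i) := by
        rw [PTree.tops, if_neg (by rw [hi]; decide), Finset.mem_singleton]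
      have h1 := lay_F_top hP hz G hG hti
      rw [hP.pos i hi]
      simp only [h1]
      by_cases h2 : (i : ℕ) < 3
      · have h3 : ¬ 3 ≤ (i : ℕ) := by omega
        simp [h2]
      · have h3 : 3 ≤ (i : ℕ) := by omega
        simp [h3]
  · -- gFar
    intro p hp c hc hcf
    rw [lay_P, Finset.mem_union, Finset.mem_filter, Finset.mem_filter] at hp
    rcases hp with ⟨_, hp⟩ | ⟨_, i, hi, rfl, c', hc', hcf', hcb'⟩
    · have hpZ := hawayP _ (hτW p) p hp
      obtain ⟨h1, h2⟩ := hchpar _ _ hc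
      have hcW : c ∉ W := by
        intro h
        have hcz : c ≠ z := by
          rintro rfl
          exact h2 hz
        obtain ⟨i, hi⟩ := hTopsW c h hcz
        apply hpZ
        have h3 : p ∈ T.ball (1 + 1) (t i) :=
          T.ball_trans (lay_tops_ball hi) (T.mem_ball_comm.1 (lay_ch_ball hc))
        exact lay_Z_of_ball (by omega) h3
      rw [hbdW c hcW]
      have h3 : τ c = τ p := by
        have := lay_tau_par T W z hz hzW c hcW
        rw [h1] at this
        exact this.symm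
      rw [h3]
      exact (hL _ (hτW p)).gFar p hp c hc hcf
    · exact hgrp i hi c' hc' hcf' hcb' c hc hcf
  · -- gNear
    intro p hp c hc hcf
    rw [lay_P, Finset.mem_union, Finset.mem_filter, Finset.mem_filter] at hp
    rcases hp with ⟨_, hp⟩ | ⟨_, i, hi, rfl, c', hc', hcf', hcb'⟩
    · have hpZ := hawayP _ (hτW p) p hp
      obtain ⟨h1, h2⟩ := hchpar _ _ hc
      have hcW : c ∉ W := by
        intro h
        have hcz : c ≠ z := by
          rintro rfl
          exact h2 hz
        obtain ⟨i, hi⟩ := hTopsW c h hcz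
        apply hpZ
        have h3 : p ∈ T.ball (1 + 1) (t i) :=
          T.ball_trans (lay_tops_ball hi) (T.mem_ball_comm.1 (lay_ch_ball hc))
        exact lay_Z_of_ball (by omega) h3
      rw [hbdW c hcW]
      have h3 : τ c = τ p := by
        have := lay_tau_par T W z hz hzW c hcW
        rw [h1] at this
        exact this.symm
      rw [h3]
      exact (hL _ (hτW p)).gNear p hp c hc hcf
    · have hcZ : c ∈ lay_Z T R t := hnbZ i c (lay_ch_ball hc)
      have hcW : c ∉ W := by
        intro h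
        have hcz : c ≠ z := by
          rintro rfl
          exact (hchpar _ _ hc).2 hz
        obtain ⟨j, hj⟩ := hTopsW c h hcz
        have h1 : i = j := lay_tops_inj hP (by omega : 1 + 1 ≤ R + 2) (lay_ch_ball hc)
          (lay_tops_ball hj)
        rw [← h1, PTree.tops, if_pos hi, PTree.far, Finset.mem_filter, hcf] at hj
        exact absurd hj.2 (by decide)
      rw [hbdW c hcW]
      intro h
      rcases (hL _ (hτW c)).bd c h with h' | ⟨h', _⟩
      · exact hawayQ _ (hτW c) c h' hcZ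
      · rw [hcf] at h'
        exact absurd h' (by decide)
  · -- gSelf
    intro p hp hpb
    have hp0 := hbd0 p hpb
    have hpz : p ≠ z := by
      rintro rfl
      exact hp0 hz
    rw [lay_P, Finset.mem_union, Finset.mem_filter, Finset.mem_filter] at hp
    rcases hp with ⟨_, hp⟩ | ⟨_, i, hi, rfl, c', hc', hcf', hcb'⟩
    · have hpW := hnotW p (hawayP _ (hτW p) p hp) hpz
      exact ((hL _ (hτW p)).gSelf p hp).2 ((hbdW p hpW).1 hpb)
    · have hpW := htiW i hi
      rcases (hL _ (hτW (t i))).bd (t i) ((hbdW _ hpW).1 hpb) with h' | ⟨_, h'⟩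
      · exact hawayQ _ (hτW (t i)) _ h' (hnbZ i _ (T.self_mem_ball 1 (t i)))
      · refine hawayP _ (hτW (t i)) _ h' (hnbZ i _ ?_)
        apply PTree.Nb.mem_ball
        exact Or.inr ⟨hp0, rfl⟩
  · -- sep
    have hmem : ∀ v ∈ lay_P T far b t z G P ∪ lay_Q T far b t z G Q,
        (v ∈ P (τ v) ∪ Q (τ v)) ∨ ∃ i, v = t i := by
      intro v hv
      rw [Finset.mem_union, lay_P, lay_Q, Finset.mem_union, Finset.mem_union,
        Finset.mem_filter, Finset.mem_filter, Finset.mem_filter, Finset.mem_filter] at hv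
      rcases hv with (⟨_, h⟩ | ⟨_, i, _, h, _⟩) | (⟨_, h⟩ | ⟨_, i, _, h, _⟩)
      · exact Or.inl (Finset.mem_union_left _ h)
      · exact Or.inr ⟨i, h⟩
      · exact Or.inl (Finset.mem_union_right _ h)
      · exact Or.inr ⟨i, h⟩
    have hin : ∀ a, a ∈ P (τ a) ∪ Q (τ a) → a ∉ lay_Z T R t := fun a ha =>
      ((hL _ (hτW a)).away a ha).1
    intro a ha c hc hac hball
    rcases hmem a ha with ha' | ⟨i, rfl⟩
    · rcases hmem c hc with hc' | ⟨j, rfl⟩
      · by_cases h : τ a = τ c
        · rw [← h] at hc'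
          exact (hL _ (hτW a)).sep a ha' c hc' hac hball
        · have ha1 := (hspec a).2
          have hc1 := (hspec c).2
          by_cases h1 : T.Le (τ a) c
          · by_cases h2 : T.Le (τ c) a
            · exact h (PTree.Le.antisymm (hc1.2 _ (hτW a) h1) (ha1.2 _ (hτW c) h2))
            · have h3 := PTree.mem_ball_of_sep (T.mem_ball_comm.1 hball) hc1.1 h2
              have h4 : τ c ≠ z := by
                intro h4
                rw [h4] at h2
                exact h2 (T.le_root z hz a)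
              obtain ⟨i, hi⟩ := hTopsW _ (hτW c) h4
              have h5 : c ∈ T.ball (1 + R) (t i) :=
                T.ball_trans (lay_tops_ball hi) (T.mem_ball_comm.1 h3.1)
              exact hin c hc' (lay_Z_of_ball (by omega) h5)
          · have h3 := PTree.mem_ball_of_sep hball ha1.1 h1
            have h4 : τ a ≠ z := by
              intro h4
              rw [h4] at h1
              exact h1 (T.le_root z hz c)
            obtain ⟨i, hi⟩ := hTopsW _ (hτW a) h4
            have h5 : a ∈ T.ball (1 + R) (t i) :=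
              T.ball_trans (lay_tops_ball hi) (T.mem_ball_comm.1 h3.1)
            exact hin a ha' (lay_Z_of_ball (by omega) h5)
      · exact hin a ha' (lay_Z_of_ball (by omega) (T.mem_ball_comm.1 hball))
    · rcases hmem c hc with hc' | ⟨j, rfl⟩
      · exact hin c hc' (lay_Z_of_ball (by omega) hball)
      · have hij : i ≠ j := by
          rintro rfl
          exact hac rfl
        exact hP.sep i j hij (T.ball_mono (by omega) _ hball)

/-! ### Masses -/

lemma lay_new (hP : Parts T pos far (R + 2) M η' b t) {i j : Fin 6} (hij : i < j) {r s : Fin n}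
    (hr : r ∈ T.tops far (b i) (t i)) (hs : s ∈ T.tops far (b j) (t j)) : ¬ T.Le r s := by
  intro h
  have hitem : ∀ u, T.Le r u → u ∈ T.item far (b i) (t i) := by
    intro u hu
    rw [PTree.item, Finset.mem_biUnion]
    exact ⟨r, hr, PTree.mem_sub.2 hu⟩
  cases hb : b j with
  | false =>
    rw [PTree.tops, if_neg (by rw [hb]; decide), Finset.mem_singleton] at hs
    rw [hs] at h
    exact hP.new i j hij (hitem _ h)
  | true =>
    rw [hb] at hs
    have hs' := hs
    rw [PTree.tops, if_pos rfl, PTree.far, Finset.mem_filter, PTree.ch, Finset.mem_filter] at hs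
    rcases PTree.le_iff.1 h with h1 | ⟨_, h1⟩
    · rw [h1] at hr
      have := lay_tops_inj hP (by omega : 1 + 1 ≤ R + 2) (lay_tops_ball hr) (lay_tops_ball hs')
      exact absurd this hij.ne
    · rw [hs.1.2.2] at h1
      exact hP.new i j hij (hitem _ h1)

lemma lay_region (hP : Parts T pos far (R + 2) M η' b t) (hz : (z : ℕ) = 0) {j : Fin 6}
    {v : Fin n} (hv : v ∈ T.item far (b j) (t j) \
      (univ.filter fun i => i < j).biUnion fun i => T.item far (b i) (t i)) :
    lay_tau T (lay_W T far b t z) v ∈ T.tops far (b j) (t j) := by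
  have hzW : z ∈ lay_W T far b t z := lay_mem_W.2 (Or.inl rfl)
  rw [Finset.mem_sdiff, PTree.item, Finset.mem_biUnion] at hv
  obtain ⟨⟨r, hr, hrv⟩, hnot⟩ := hv
  rw [PTree.mem_sub] at hrv
  obtain ⟨h1, h2, h3⟩ := lay_tau_spec T (lay_W T far b t z) z hz hzW v
  have hrW : r ∈ lay_W T far b t z := lay_mem_W.2 (Or.inr (lay_mem_Tops.2 ⟨j, hr⟩))
  have h4 := h3 r hrW hrv
  set s := lay_tau T (lay_W T far b t z) v with hs
  have hrz : r ≠ z := lay_tops_ne hP hz (by omega) (lay_tops_ball hr)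
  have hsz : s ≠ z := by
    intro h
    apply hrz
    have h5 := h4.le
    rw [h] at h5
    have h6 : (r : ℕ) ≤ (z : ℕ) := h5
    exact Fin.ext (by omega)
  rcases lay_mem_W.1 h1 with h | h
  · exact absurd h hsz
  obtain ⟨i, hi⟩ := lay_mem_Tops.1 h
  have hvi : v ∈ T.item far (b i) (t i) := by
    rw [PTree.item, Finset.mem_biUnion]
    exact ⟨s, hi, PTree.mem_sub.2 h2⟩
  rcases lt_trichotomy i j with hij | hij | hij
  · exfalso
    apply hnot
    rw [Finset.mem_biUnion]
    exact ⟨i, by rw [Finset.mem_filter]; exact ⟨Finset.mem_univ _, hij⟩, hvi⟩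
  · rw [← hij]
    exact hi
  · exact absurd h4 (lay_new hP hij hr hi)

lemma lay_card_tops {Δ : ℕ} (hΔ : T.Deg Δ) (b : Bool) (t : Fin n) :
    (T.tops far b t).card ≤ Δ + 1 := by
  unfold PTree.tops
  split_ifs
  · rw [PTree.far]
    exact (Finset.card_filter_le _ _).trans ((hΔ t).trans (by omega))
  · simp

lemma lay_card_W {Δ : ℕ} (hΔ : T.Deg Δ) : (lay_W T far b t z).card ≤ 6 * Δ + 7 := by
  have h1 : (lay_Tops T far b t).card ≤ 6 * (Δ + 1) := by
    unfold lay_Tops
    refine Finset.card_biUnion_le.trans ?_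
    refine (Finset.sum_le_sum fun i _ => lay_card_tops hΔ (b i) (t i)).trans ?_
    simp
  have h2 := Finset.card_insert_le z (lay_Tops T far b t)
  unfold lay_W
  omega

lemma lay_card_Z {Δ : ℕ} (hΔ : T.Deg Δ) : (lay_Z T R t).card ≤ 6 * (Δ + 2) ^ (R + 2) := by
  unfold lay_Z
  refine Finset.card_biUnion_le.trans ?_
  refine (Finset.sum_le_sum fun i _ => T.card_ball hΔ (R + 2) (t i)).trans ?_
  simp

lemma lay_triv (pos far : Fin n → Bool) (R : ℕ) (Z : Finset (Fin n)) (r : Fin n) :
    LayIn T pos far R Z r ∅ ∅ ∅ := by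
  refine ⟨?_, ?_, ?_, ?_, ?_, ?_, ?_, ?_, ?_⟩
  · exact Finset.empty_subset _
  · exact Finset.notMem_empty _
  · intro v hv
    rw [PTree.bdIn, Finset.mem_filter] at hv
    exact absurd (Iff.intro (fun h => absurd h (Finset.notMem_empty _))
      (fun h => absurd h (Finset.notMem_empty _))) hv.2.2
  · intro v hv
    exact absurd hv (Finset.notMem_empty _)
  · intro v hv
    exact absurd hv (Finset.notMem_empty _)
  · intro v hv
    exact absurd hv (Finset.notMem_empty _)
  · intro v hv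
    exact absurd hv (Finset.notMem_empty _)
  · intro v hv
    simp at hv
  · intro v hv
    simp at hv

theorem layout (Δ R : ℕ) (η : ℝ) (hη : 0 < η) : ∃ (K : ℕ) (η' : ℝ), 0 < η' ∧
    ∀ (n : ℕ) (T : PTree n), T.Deg Δ → K ≤ n →
    ∀ pos far : Fin n → Bool, T.Alt pos far ∅ →
    ∀ h : Fin n → ℤ, (∀ v, |h v| ≤ 1) →
    ∀ M : Finset (Fin n), η * (n : ℝ) ≤ (M.card : ℝ) →
    ∃ F P Q : Finset (Fin n), Layout T pos far R F P Q ∧
      (P ∪ Q).card ≤ K * (Nat.log 2 n + 1) ∧
      |∑ v, h v * (if v ∈ F then -1 else 1)| ≤ K ∧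
      η' * (n : ℝ) ≤ ((M ∩ F).card : ℝ) ∧ η' * (n : ℝ) ≤ ((M \ F).card : ℝ) := by
  obtain ⟨K₁, η', hη', hparts⟩ := parts Δ (R + 2) η hη
  obtain ⟨K₂, hharv⟩ := harvest Δ R (6 * (Δ + 2) ^ (R + 2))
  refine ⟨K₁ + 1 + (6 * Δ + 7) * K₂ + 6 + 2 * (6 * Δ + 7) + 2 * (6 * Δ + 7) * K₂, η', hη', ?_⟩
  intro n T hΔ hn pos far hAlt h hh M hM
  have hn1 : 0 < n := by omega
  let z : Fin n := ⟨0, hn1⟩
  have hz : (z : ℕ) = 0 := rfl
  obtain ⟨b, t, hP⟩ := hparts n T hΔ (by omega) pos far hAlt M hM
  set W := lay_W T far b t z with hW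
  have hzW : z ∈ W := lay_mem_W.2 (Or.inl rfl)
  set τ := lay_tau T W with hτ
  have hspec := lay_tau_spec T W z hz hzW
  have hτW : ∀ v, τ v ∈ W := fun v => (hspec v).1
  set F₁ := lay_F1 T far b t z with hF₁
  set q1 : Fin n → ℤ := fun v => h v * (if v ∈ F₁ then -1 else 1) with hq1
  have hq1a : ∀ v, |q1 v| ≤ 1 := by
    intro v
    simp only [hq1]
    rw [abs_mul]
    split_ifs
    · simpa using hh v
    · simpa using hh v
  set A : ℤ := |∑ v, q1 v| with hA
  obtain ⟨σ, hσ, hσA⟩ : ∃ σ : ℤ, |σ| = 1 ∧ σ * ∑ v, q1 v = A := by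
    rcases le_or_gt 0 (∑ v, q1 v) with h0 | h0
    · exact ⟨1, by simp, by rw [hA, abs_of_nonneg h0, one_mul]⟩
    · exact ⟨-1, by simp, by rw [hA, abs_of_neg h0]; ring⟩
  let g : Fin n → Fin n → ℤ := fun r v => if τ v = r then σ * q1 v else 0
  have hg : ∀ r v, |g r v| ≤ 1 := by
    intro r v
    simp only [g]
    split_ifs
    · rw [abs_mul, hσ, one_mul]
      exact hq1a v
    · simp
  let q : Fin n → ℤ := fun r => ∑ x ∈ T.sub r, g r x
  have hq : ∑ r ∈ W, q r = A := by
    have h1 : ∀ r ∈ W, q r = ∑ v ∈ univ.filter (fun v => τ v = r), σ * q1 v := by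
      intro r _
      simp only [q, g]
      rw [← Finset.sum_filter]
      congr 1
      ext v
      rw [Finset.mem_filter, Finset.mem_filter, PTree.mem_sub]
      constructor
      · rintro ⟨_, h2⟩
        exact ⟨Finset.mem_univ _, h2⟩
      · rintro ⟨_, h2⟩
        refine ⟨?_, h2⟩
        rw [← h2]
        exact (hspec v).2.1
    rw [Finset.sum_congr rfl h1, Finset.sum_fiberwise_of_maps_to (fun v _ => hτW v),
      ← Finset.mul_sum, hσA]
  obtain ⟨j₁, j₀, m, hj₁, hj₀, hm0, hmj₁, hmj₀, hmq, hmA1, hmA2⟩ :=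
    lay_num W q A (abs_nonneg _) hq (fun i => T.tops far (b i) (t i))
      (fun i r hr => lay_mem_W.2 (Or.inr (lay_mem_Tops.2 ⟨i, hr⟩)))
      (fun i j hij => by
        rw [Finset.disjoint_left]
        intro r hr hr'
        exact hij (lay_tops_inj hP (by omega : 1 + 1 ≤ R + 2) (lay_tops_ball hr)
          (lay_tops_ball hr')))
  have hex : ∀ r, ∃ G P Q : Finset (Fin n),
      LayIn T (lay_pos1 T pos far b t z) far R (lay_Z T R t) r G P Q ∧
      (P ∪ Q).card ≤ K₂ * (Nat.log 2 n + 1) ∧ m r - K₂ ≤ ∑ x ∈ G, g r x ∧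
      ∑ x ∈ G, g r x ≤ m r ∧ (m r = 0 → G = ∅) := by
    intro r
    by_cases h0 : m r = 0
    · refine ⟨∅, ∅, ∅, lay_triv _ _ _ _ _, ?_, ?_, ?_, fun _ => rfl⟩
      · simp
      · rw [h0]
        simp
      · rw [h0]
        simp
    · have h1 : 4 * m r ≤ 3 * ∑ x ∈ T.sub r, g r x := (hmq r).resolve_left h0
      obtain ⟨G, P, Q, h2, h3, h4, h5⟩ := hharv n T hΔ (g r) (hg r) (lay_pos1 T pos far b t z) far
        (lay_Z T R t) (lay_card_Z hΔ) (lay_alt hz hAlt) r (m r) (hm0 r) h1
      exact ⟨G, P, Q, h2, h3, h4, h5, fun h => absurd h h0⟩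
  choose G P Q hL hcard hlow hupp hemp using hex
  refine ⟨lay_F T far b t z G, lay_P T far b t z G P, lay_Q T far b t z G Q,
    lay_glue hP hz G P Q (fun r _ => hL r), ?_, ?_, ?_, ?_⟩
  · -- number of boundary vertices
    have hsub : lay_P T far b t z G P ∪ lay_Q T far b t z G Q ⊆
        (W.biUnion fun r => P r ∪ Q r) ∪ univ.image t := by
      intro v hv
      rw [Finset.mem_union, lay_P, lay_Q, Finset.mem_union, Finset.mem_union,
        Finset.mem_filter, Finset.mem_filter, Finset.mem_filter, Finset.mem_filter] at hv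
      rw [Finset.mem_union, Finset.mem_biUnion, Finset.mem_image]
      rcases hv with (⟨_, h⟩ | ⟨_, i, _, h, _⟩) | (⟨_, h⟩ | ⟨_, i, _, h, _⟩)
      · exact Or.inl ⟨_, hτW v, Finset.mem_union_left _ h⟩
      · exact Or.inr ⟨i, Finset.mem_univ _, h.symm⟩
      · exact Or.inl ⟨_, hτW v, Finset.mem_union_right _ h⟩
      · exact Or.inr ⟨i, Finset.mem_univ _, h.symm⟩
    have h1 : (W.biUnion fun r => P r ∪ Q r).card ≤ W.card * (K₂ * (Nat.log 2 n + 1)) :=
      Finset.card_biUnion_le.trans (by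
        rw [← smul_eq_mul, ← Finset.sum_const]
        exact Finset.sum_le_sum fun r _ => hcard r)
    have h2 : ((univ : Finset (Fin 6)).image t).card ≤ 6 :=
      Finset.card_image_le.trans (by simp)
    have h3 : W.card ≤ 6 * Δ + 7 := lay_card_W hΔ
    calc (lay_P T far b t z G P ∪ lay_Q T far b t z G Q).card
        ≤ ((W.biUnion fun r => P r ∪ Q r) ∪ univ.image t).card := Finset.card_le_card hsub
      _ ≤ (W.biUnion fun r => P r ∪ Q r).card + (univ.image t).card := Finset.card_union_le _ _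
      _ ≤ (6 * Δ + 7) * (K₂ * (Nat.log 2 n + 1)) + 6 :=
          Nat.add_le_add (h1.trans (Nat.mul_le_mul_right _ h3)) h2
      _ ≤ ((6 * Δ + 7) * K₂ + 6) * (Nat.log 2 n + 1) := by nlinarith
      _ ≤ _ := Nat.mul_le_mul_right _ (by omega)
  · -- balance
    set B : ℤ := ∑ r ∈ W, ∑ v ∈ G r, g r v with hB
    have hBeq : B = ∑ v, (if v ∈ G (τ v) then σ * q1 v else 0) := by
      rw [← Finset.sum_fiberwise_of_maps_to (s := univ) (t := W) (g := τ) (fun v _ => hτW v), hB]
      apply Finset.sum_congr rfl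
      intro r _
      simp only [g]
      rw [← Finset.sum_filter]
      have h1 : ∀ v ∈ univ.filter (fun v => τ v = r), (if v ∈ G (τ v) then σ * q1 v else 0) =
          (if v ∈ G r then σ * q1 v else 0) := by
        intro v hv
        rw [(Finset.mem_filter.1 hv).2]
      rw [Finset.sum_congr rfl h1, ← Finset.sum_filter]
      congr 1
      ext v
      simp only [Finset.mem_filter, Finset.mem_univ, true_and]
      tauto
    have hsum : σ * ∑ v, h v * (if v ∈ lay_F T far b t z G then -1 else 1) = A - 2 * B := by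
      rw [← hσA, hBeq, Finset.mul_sum, Finset.mul_sum, Finset.mul_sum, ← Finset.sum_sub_distrib]
      apply Finset.sum_congr rfl
      intro v _
      have h3 : (v ∈ lay_F T far b t z G) ↔ ¬ (v ∈ F₁ ↔ v ∈ G (τ v)) := by
        rw [lay_F, Finset.mem_filter]
        simp only [Finset.mem_univ, true_and]
        exact Iff.rfl
      simp only [hq1]
      by_cases ha : v ∈ F₁ <;> by_cases hb : v ∈ G (τ v) <;> simp [h3, ha, hb] <;> ring
    have habs : |∑ v, h v * (if v ∈ lay_F T far b t z G then -1 else 1)| = |A - 2 * B| := by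
      rw [← hsum, abs_mul, hσ, one_mul]
    rw [habs]
    have hB1 : B ≤ ∑ r ∈ W, m r := Finset.sum_le_sum fun r _ => hupp r
    have hB2 : ∑ r ∈ W, m r - W.card * K₂ ≤ B := by
      have h1 := Finset.sum_le_sum (fun r (_ : r ∈ W) => hlow r)
      rw [Finset.sum_sub_distrib, Finset.sum_const, nsmul_eq_mul] at h1
      exact h1
    have h3 : (W.card : ℤ) ≤ 6 * Δ + 7 := by exact_mod_cast (lay_card_W hΔ : W.card ≤ 6 * Δ + 7)
    have h4 : (W.card : ℤ) * K₂ ≤ (6 * Δ + 7) * K₂ :=
      mul_le_mul_of_nonneg_right h3 (Int.natCast_nonneg _)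
    have h5 : (0 : ℤ) ≤ (K₁ : ℤ) := Int.natCast_nonneg _
    have h6 : (0 : ℤ) ≤ (6 * (Δ : ℤ) + 7) * K₂ := by positivity
    rw [abs_le]
    push_cast
    constructor
    · linarith
    · linarith
  · -- first mass
    refine (hP.mass j₁).trans ?_
    have hsub : M ∩ (T.item far (b j₁) (t j₁) \
        (univ.filter fun i => i < j₁).biUnion fun i => T.item far (b i) (t i)) ⊆
        M ∩ lay_F T far b t z G := by
      intro v hv
      rw [Finset.mem_inter] at hv ⊢
      refine ⟨hv.1, ?_⟩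
      have h1 : τ v ∈ T.tops far (b j₁) (t j₁) := lay_region hP hz hv.2
      have h2 : v ∈ lay_F1 T far b t z := by
        rw [lay_F1, Finset.mem_filter]
        exact ⟨Finset.mem_univ _, j₁, hj₁, h1⟩
      have h3 : G (τ v) = ∅ := hemp _ (hmj₁ _ h1)
      rw [lay_F, Finset.mem_filter]
      refine ⟨Finset.mem_univ _, fun h4 => ?_⟩
      have h5 : v ∈ G (τ v) := h4.1 h2
      rw [h3] at h5
      exact Finset.notMem_empty _ h5
    exact_mod_cast Finset.card_le_card hsub
  · -- second mass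
    refine (hP.mass j₀).trans ?_
    have hsub : M ∩ (T.item far (b j₀) (t j₀) \
        (univ.filter fun i => i < j₀).biUnion fun i => T.item far (b i) (t i)) ⊆
        M \ lay_F T far b t z G := by
      intro v hv
      rw [Finset.mem_inter] at hv
      rw [Finset.mem_sdiff]
      refine ⟨hv.1, ?_⟩
      have h1 : τ v ∈ T.tops far (b j₀) (t j₀) := lay_region hP hz hv.2
      have h2 : v ∉ lay_F1 T far b t z := by
        rw [lay_F1, Finset.mem_filter]
        rintro ⟨_, i, hi, h2⟩
        have : i = j₀ := lay_tops_inj hP (by omega : 1 + 1 ≤ R + 2) (lay_tops_ball h2)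
          (lay_tops_ball h1)
        rw [this] at hi
        omega
      have h3 : G (τ v) = ∅ := hemp _ (hmj₀ _ h1)
      rw [lay_F, Finset.mem_filter]
      rintro ⟨_, h4⟩
      apply h4
      constructor
      · exact fun h5 => absurd h5 h2
      · intro h5
        have h6 : v ∈ G (τ v) := h5
        rw [h3] at h6
        exact absurd h6 (Finset.notMem_empty _)
    exact_mod_cast Finset.card_le_card hsub

end

end OT
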