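import Pool.Agent.Helper14.EX.LAY

/-!
# MP_2857a5_co : the layout lemma with a target
-/

set_option autoImplicit false

open Finset
open scoped Classical

namespace OT

noncomputable section

/-- The numbers to be harvested. -/
lemma layg_num {V : Type} (W : Finset V) (q : V → ℤ) (A : ℤ) (hA : 0 ≤ A)
    (hq : A ≤ ∑ r ∈ W, max (q r) 0) (tp : Fin 6 → Finset V) (htp : ∀ i, tp i ⊆ W)
    (hdis : ∀ i j, i ≠ j → Disjoint (tp i) (tp j)) :
    ∃ (j₁ j₀ : Fin 6) (m : V → ℤ), (j₁ : ℕ) < 3 ∧ 3 ≤ (j₀ : ℕ) ∧ (∀ r, 0 ≤ m r) ∧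
      (∀ r ∈ tp j₁, m r = 0) ∧ (∀ r ∈ tp j₀, m r = 0) ∧
      (∀ r, m r = 0 ∨ 4 * m r ≤ 3 * q r) ∧
      A - 2 * W.card ≤ 2 * ∑ r ∈ W, m r ∧ 2 * ∑ r ∈ W, m r ≤ A := by
  set qp : V → ℤ := fun r => max (q r) 0 with hqp
  have hqp0 : ∀ r, 0 ≤ qp r := fun r => le_max_right _ _
  have hqle : ∀ r, q r ≤ qp r := fun r => le_max_left _ _
  set s : Fin 6 → ℤ := fun j => ∑ r ∈ tp j, qp r with hs
  obtain ⟨j₁, hj₁, hs₁⟩ := lay_min3 s 0 1 2
  obtain ⟨j₀, hj₀, hs₀⟩ := lay_min3 s 3 4 5
  have hj₁' : (j₁ : ℕ) < 3 := by rcases hj₁ with h | h | h <;> rw [h] <;> decide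
  have hj₀' : 3 ≤ (j₀ : ℕ) := by rcases hj₀ with h | h | h <;> rw [h] <;> decide
  have hne : j₁ ≠ j₀ := by
    intro h
    rw [h] at hj₁'
    omega
  set Tot : ℤ := ∑ r ∈ W, qp r with hTot
  have hTotA : A ≤ Tot := hq
  have hsum6 : ∑ j, s j ≤ Tot := by
    rw [hs]
    have : ∑ j, ∑ r ∈ tp j, qp r = ∑ r ∈ univ.biUnion tp, qp r := by
      rw [Finset.sum_biUnion]
      intro i _ j _ hij
      exact hdis i j hij
    simp only [this]
    apply Finset.sum_le_sum_of_subset_of_nonneg
    · intro r hr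
      rw [Finset.mem_biUnion] at hr
      obtain ⟨j, _, hj⟩ := hr
      exact htp j hj
    · intro i _ _
      exact hqp0 i
  have hsum6' : s 0 + s 1 + s 2 + (s 3 + s 4 + s 5) ≤ Tot := by
    have : ∑ j, s j = s 0 + s 1 + s 2 + (s 3 + s 4 + s 5) := by
      simp only [Fin.sum_univ_succ, Fin.sum_univ_zero]
      simp
      ring
    rw [← this]
    exact hsum6
  set U : Finset V := W \ (tp j₁ ∪ tp j₀) with hU
  set S : ℤ := ∑ r ∈ U, qp r with hS
  have hS0 : 0 ≤ S := Finset.sum_nonneg fun r _ => hqp0 r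
  have hST : S = Tot - (s j₁ + s j₀) := by
    have h1 : tp j₁ ∪ tp j₀ ⊆ W := Finset.union_subset (htp _) (htp _)
    have h2 := Finset.sum_sdiff (f := qp) h1
    rw [Finset.sum_union (hdis _ _ hne)] at h2
    linarith
  have hSA : 2 * A ≤ 3 * S := by linarith
  set m : V → ℤ := fun r => if r ∈ U then A * qp r / (2 * S) else 0 with hm
  have hm0 : ∀ r, 0 ≤ m r := by
    intro r
    simp only [hm]
    split_ifs
    · exact Int.ediv_nonneg (mul_nonneg hA (hqp0 r)) (by linarith)
    · exact le_rfl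
  have hsumU : ∑ r ∈ W, m r = ∑ r ∈ U, A * qp r / (2 * S) := by
    simp only [hm]
    rw [← Finset.sum_filter]
    congr 1
    ext r
    rw [Finset.mem_filter]
    constructor
    · exact fun h => h.2
    · exact fun h => ⟨(Finset.mem_sdiff.1 h).1, h⟩
  refine ⟨j₁, j₀, m, hj₁', hj₀', hm0, ?_, ?_, ?_, ?_, ?_⟩
  · intro r hr
    simp only [hm]
    rw [if_neg]
    rw [hU, Finset.mem_sdiff, Finset.mem_union]
    exact fun h => h.2 (Or.inl hr)
  · intro r hr
    simp only [hm]
    rw [if_neg]
    rw [hU, Finset.mem_sdiff, Finset.mem_union]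
    exact fun h => h.2 (Or.inr hr)
  · intro r
    by_cases hr : r ∈ U
    · by_cases hqr : q r ≤ 0
      · left
        simp only [hm]
        have : qp r = 0 := max_eq_right hqr
        rw [if_pos hr, this, mul_zero, Int.zero_ediv]
      · push Not at hqr
        have hqe : qp r = q r := max_eq_left hqr.le
        have hmr : m r = A * q r / (2 * S) := by
          simp only [hm]
          rw [if_pos hr, hqe]
        rcases hS0.eq_or_lt with h | h
        · left
          rw [hmr, ← h, mul_zero, Int.ediv_zero]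
        · right
          have h1 : 2 * S * m r ≤ A * q r := by
            rw [hmr, mul_comm]
            exact Int.ediv_mul_le _ (by linarith)
          have h2 : S * (4 * m r) ≤ S * (3 * q r) := by
            calc S * (4 * m r) = 2 * (2 * S * m r) := by ring
              _ ≤ 2 * (A * q r) := by linarith
              _ = (2 * A) * q r := by ring
              _ ≤ (3 * S) * q r := mul_le_mul_of_nonneg_right hSA hqr.le
              _ = S * (3 * q r) := by ring
          exact le_of_mul_le_mul_left h2 h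
    · left
      simp only [hm]
      rw [if_neg hr]
  · rw [hsumU]
    rcases hS0.eq_or_lt with h | h
    · have h0 : A = 0 := by linarith
      have h1 : ∀ r ∈ U, A * qp r / (2 * S) = 0 := by
        intro r _
        rw [← h, mul_zero, Int.ediv_zero]
      rw [Finset.sum_congr rfl h1, Finset.sum_const_zero, h0]
      have h2 : (0 : ℤ) ≤ (W.card : ℤ) := Int.natCast_nonneg _
      linarith
    · have h1 : A * S - 2 * S * U.card ≤ 2 * S * ∑ r ∈ U, A * qp r / (2 * S) := by
        have h2 : ∀ r ∈ U, A * qp r - 2 * S ≤ 2 * S * (A * qp r / (2 * S)) := by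
          intro r _
          have h3 := Int.emod_add_mul_ediv (A * qp r) (2 * S)
          have h4 := Int.emod_lt_of_pos (A * qp r) (by linarith : 0 < 2 * S)
          linarith
        have h5 := Finset.sum_le_sum h2
        rw [Finset.sum_sub_distrib, Finset.sum_const, nsmul_eq_mul, ← Finset.mul_sum,
          ← Finset.mul_sum] at h5
        linarith
      have h2 : (U.card : ℤ) ≤ W.card := by
        exact_mod_cast Finset.card_le_card Finset.sdiff_subset
      have h3 : S * (A - 2 * W.card) ≤ S * (2 * ∑ r ∈ U, A * qp r / (2 * S)) := by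
        nlinarith
      exact le_of_mul_le_mul_left h3 h
  · rw [hsumU]
    rcases hS0.eq_or_lt with h | h
    · have h1 : ∀ r ∈ U, A * qp r / (2 * S) = 0 := by
        intro r _
        rw [← h, mul_zero, Int.ediv_zero]
      rw [Finset.sum_congr rfl h1, Finset.sum_const_zero]
      linarith
    · have h1 : 2 * S * ∑ r ∈ U, A * qp r / (2 * S) ≤ A * S := by
        have h2 : ∀ r ∈ U, 2 * S * (A * qp r / (2 * S)) ≤ A * qp r := by
          intro r _
          rw [mul_comm]
          exact Int.ediv_mul_le _ (by linarith)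
        have h5 := Finset.sum_le_sum h2
        rw [← Finset.mul_sum, ← Finset.mul_sum] at h5
        exact h5
      have h3 : S * (2 * ∑ r ∈ U, A * qp r / (2 * S)) ≤ S * A := by
        nlinarith
      exact le_of_mul_le_mul_left h3 h

theorem layoutG (Δ R : ℕ) (η : ℝ) (hη : 0 < η) : ∃ (K : ℕ) (η' : ℝ), 0 < η' ∧
    ∀ (n : ℕ) (T : PTree n), T.Deg Δ → K ≤ n →
    ∀ pos far : Fin n → Bool, T.Alt pos far ∅ →
    ∀ h : Fin n → ℤ, (∀ v, |h v| ≤ 1) →
    ∀ m : ℤ, (m = 0 ∨ ((∀ v, h v = 1) ∧ |(m : ℝ)| ≤ η' * (n : ℝ))) →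
    ∀ M : Finset (Fin n), η * (n : ℝ) ≤ (M.card : ℝ) →
    ∃ F P Q : Finset (Fin n), Layout T pos far R F P Q ∧
      (P ∪ Q).card ≤ K * (Nat.log 2 n + 1) ∧
      |(∑ v, h v * (if v ∈ F then -1 else 1)) - m| ≤ K ∧
      η' * (n : ℝ) ≤ ((M ∩ F).card : ℝ) ∧ η' * (n : ℝ) ≤ ((M \ F).card : ℝ) := by
  obtain ⟨K₁, η', hη', hparts⟩ := parts Δ (R + 2) η hη
  obtain ⟨K₂, hharv⟩ := harvest Δ R (6 * (Δ + 2) ^ (R + 2))
  refine ⟨K₁ + 1 + (6 * Δ + 7) * K₂ + 6 + 2 * (6 * Δ + 7) + 2 * (6 * Δ + 7) * K₂, η', hη', ?_⟩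
  intro n T hΔ hn pos far hAlt h hh mm hmm M hM
  have hn1 : 0 < n := by omega
  let z : Fin n := ⟨0, hn1⟩
  have hz : (z : ℕ) = 0 := rfl
  obtain ⟨b, t, hP⟩ := hparts n T hΔ (by omega) pos far hAlt M hM
  set W := lay_W T far b t z with hW
  have hzW : z ∈ W := lay_mem_W.2 (Or.inl rfl)
  set τ := lay_tau T W with hτ
  have hspec := lay_tau_spec T W z hz hzW
  have hτW : ∀ v, τ v ∈ W := fun v => (hspec v).1
  set F₁ := lay_F1 T far b t z with hF₁
  set q1 : Fin n → ℤ := fun v => h v * (if v ∈ F₁ then -1 else 1) with hq1d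
  have hq1a : ∀ v, |q1 v| ≤ 1 := by
    intro v
    simp only [hq1d]
    rw [abs_mul]
    split_ifs
    · simpa using hh v
    · simpa using hh v
  set A : ℤ := |(∑ v, q1 v) - mm| with hA
  obtain ⟨σ, hσ, hσA, hσ1⟩ : ∃ σ : ℤ, |σ| = 1 ∧ σ * ((∑ v, q1 v) - mm) = A ∧
      (σ = 1 ∨ σ = -1) := by
    rcases le_or_gt 0 ((∑ v, q1 v) - mm) with h0 | h0
    · exact ⟨1, by simp, by rw [hA, abs_of_nonneg h0, one_mul], Or.inl rfl⟩
    · exact ⟨-1, by simp, by rw [hA, abs_of_neg h0]; ring, Or.inr rfl⟩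
  let g : Fin n → Fin n → ℤ := fun r v => if τ v = r then σ * q1 v else 0
  have hg : ∀ r v, |g r v| ≤ 1 := by
    intro r v
    simp only [g]
    split_ifs
    · rw [abs_mul, hσ, one_mul]
      exact hq1a v
    · simp
  let q : Fin n → ℤ := fun r => ∑ x ∈ T.sub r, g r x
  have hq1 : ∀ r ∈ W, q r = ∑ v ∈ univ.filter (fun v => τ v = r), σ * q1 v := by
    intro r _
    simp only [q, g]
    rw [← Finset.sum_filter]
    congr 1
    ext v
    rw [Finset.mem_filter, Finset.mem_filter, PTree.mem_sub]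
    constructor
    · rintro ⟨_, h2⟩
      exact ⟨Finset.mem_univ _, h2⟩
    · rintro ⟨_, h2⟩
      refine ⟨?_, h2⟩
      rw [← h2]
      exact (hspec v).2.1
  have hF1τ : ∀ v, τ v ∈ F₁ ↔ v ∈ F₁ := by
    intro v
    have h1 : τ (τ v) = τ v := lay_tau_self T W z hz hzW _ (hτW v)
    rw [hF₁, lay_F1, Finset.mem_filter, Finset.mem_filter]
    constructor
    · rintro ⟨_, i, hi, h2⟩
      refine ⟨Finset.mem_univ _, i, hi, ?_⟩
      have h3 : τ (τ v) ∈ T.tops far (b i) (t i) := h2
      rw [h1] at h3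
      exact h3
    · rintro ⟨_, i, hi, h2⟩
      refine ⟨Finset.mem_univ _, i, hi, ?_⟩
      have h3 : τ v ∈ T.tops far (b i) (t i) := h2
      rw [← h1] at h3
      exact h3
  have hpart : ∀ s : Bool, ∑ v, (if decide (v ∈ F₁) = s then σ * q1 v else 0) ≤
      ∑ r ∈ W, max (q r) 0 := by
    intro s
    rw [← Finset.sum_fiberwise_of_maps_to (s := univ) (t := W) (g := τ) (fun v _ => hτW v)]
    apply Finset.sum_le_sum
    intro r hr
    by_cases hrF : decide (r ∈ F₁) = s
    · have h1 : ∀ v ∈ univ.filter (fun v => τ v = r),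
          (if decide (v ∈ F₁) = s then σ * q1 v else 0) = σ * q1 v := by
        intro v hv
        rw [Finset.mem_filter] at hv
        rw [if_pos]
        rw [← hrF, decide_eq_decide, ← hF1τ v, hv.2]
      rw [Finset.sum_congr rfl h1, ← hq1 r hr]
      exact le_max_left _ _
    · have h1 : ∀ v ∈ univ.filter (fun v => τ v = r),
          (if decide (v ∈ F₁) = s then σ * q1 v else 0) = 0 := by
        intro v hv
        rw [Finset.mem_filter] at hv
        rw [if_neg]
        intro h2
        apply hrF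
        rw [← h2, decide_eq_decide, ← hF1τ v, hv.2]
      rw [Finset.sum_congr rfl h1, Finset.sum_const_zero]
      exact le_max_right _ _
  have hin : η' * (n : ℝ) ≤ (F₁.card : ℝ) := by
    refine (hP.mass 0).trans ?_
    have hsub : M ∩ (T.item far (b 0) (t 0) \
        (univ.filter fun i => i < 0).biUnion fun i => T.item far (b i) (t i)) ⊆ F₁ := by
      intro v hv
      rw [Finset.mem_inter] at hv
      have h1 : τ v ∈ T.tops far (b 0) (t 0) := lay_region hP hz hv.2
      rw [hF₁, lay_F1, Finset.mem_filter]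
      exact ⟨Finset.mem_univ _, 0, by decide, h1⟩
    exact_mod_cast Finset.card_le_card hsub
  have hout : η' * (n : ℝ) ≤ ((univ.filter fun v => v ∉ F₁).card : ℝ) := by
    refine (hP.mass 3).trans ?_
    have hsub : M ∩ (T.item far (b 3) (t 3) \
        (univ.filter fun i => i < 3).biUnion fun i => T.item far (b i) (t i)) ⊆
        univ.filter fun v => v ∉ F₁ := by
      intro v hv
      rw [Finset.mem_inter] at hv
      have h1 : τ v ∈ T.tops far (b 3) (t 3) := lay_region hP hz hv.2
      rw [Finset.mem_filter]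
      refine ⟨Finset.mem_univ _, ?_⟩
      rw [hF₁, lay_F1, Finset.mem_filter]
      rintro ⟨_, i, hi, h2⟩
      have h3 : i = 3 := lay_tops_inj hP (by omega : 1 + 1 ≤ R + 2) (lay_tops_ball h2)
        (lay_tops_ball h1)
      rw [h3] at hi
      exact absurd hi (by decide)
    exact_mod_cast Finset.card_le_card hsub
  have hq : A ≤ ∑ r ∈ W, max (q r) 0 := by
    rcases hmm with h0 | ⟨hh1, hm1⟩
    · have h1 : ∑ r ∈ W, q r = A := by
        rw [Finset.sum_congr rfl hq1, Finset.sum_fiberwise_of_maps_to (fun v _ => hτW v),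
          ← Finset.mul_sum, ← hσA, h0, sub_zero]
      rw [← h1]
      exact Finset.sum_le_sum fun r _ => le_max_left _ _
    · have hq1v : ∀ v, q1 v = if v ∈ F₁ then -1 else 1 := by
        intro v
        simp only [q1]
        rw [hh1 v, one_mul]
      have hsumq : ∑ v, q1 v = ((univ.filter fun v => v ∉ F₁).card : ℤ) - (F₁.card : ℤ) := by
        have h1 : ∀ v, q1 v = (if v ∉ F₁ then 1 else 0) - (if v ∈ F₁ then 1 else 0) := by
          intro v
          rw [hq1v]
          by_cases hv : v ∈ F₁ <;> simp [hv]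
        rw [Finset.sum_congr rfl fun v _ => h1 v, Finset.sum_sub_distrib, Finset.sum_boole,
          Finset.sum_boole]
        congr 2
        rw [Finset.filter_mem_eq_inter, Finset.univ_inter]
      have hm2 := abs_le.1 hm1
      have hin' : -(mm : ℝ) ≤ (F₁.card : ℝ) := by linarith
      have hout' : (mm : ℝ) ≤ ((univ.filter fun v => v ∉ F₁).card : ℝ) := by linarith
      have hin'' : -mm ≤ (F₁.card : ℤ) := by exact_mod_cast hin'
      have hout'' : mm ≤ ((univ.filter fun v => v ∉ F₁).card : ℤ) := by exact_mod_cast hout'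
      rcases hσ1 with h1 | h1
      · have h2 := hpart false
        have h3 : ∑ v, (if decide (v ∈ F₁) = false then σ * q1 v else 0) =
            ((univ.filter fun v => v ∉ F₁).card : ℤ) := by
          rw [← Finset.sum_boole]
          apply Finset.sum_congr rfl
          intro v _
          rw [hq1v, h1]
          by_cases hv : v ∈ F₁ <;> simp [hv]
        rw [h3] at h2
        rw [h1, one_mul, hsumq] at hσA
        linarith
      · have h2 := hpart true
        have h3 : ∑ v, (if decide (v ∈ F₁) = true then σ * q1 v else 0) = (F₁.card : ℤ) := by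
          have h4 : (F₁.card : ℤ) = ∑ v, (if v ∈ F₁ then (1 : ℤ) else 0) := by
            rw [Finset.sum_boole, Finset.filter_mem_eq_inter, Finset.univ_inter]
          rw [h4]
          apply Finset.sum_congr rfl
          intro v _
          rw [hq1v, h1]
          by_cases hv : v ∈ F₁ <;> simp [hv]
        rw [h3] at h2
        rw [h1, hsumq] at hσA
        linarith
  obtain ⟨j₁, j₀, m, hj₁, hj₀, hm0, hmj₁, hmj₀, hmq, hmA1, hmA2⟩ :=
    layg_num W q A (abs_nonneg _) hq (fun i => T.tops far (b i) (t i))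
      (fun i r hr => lay_mem_W.2 (Or.inr (lay_mem_Tops.2 ⟨i, hr⟩)))
      (fun i j hij => by
        rw [Finset.disjoint_left]
        intro r hr hr'
        exact hij (lay_tops_inj hP (by omega : 1 + 1 ≤ R + 2) (lay_tops_ball hr)
          (lay_tops_ball hr')))
  have hex : ∀ r, ∃ G P Q : Finset (Fin n),
      LayIn T (lay_pos1 T pos far b t z) far R (lay_Z T R t) r G P Q ∧
      (P ∪ Q).card ≤ K₂ * (Nat.log 2 n + 1) ∧ m r - K₂ ≤ ∑ x ∈ G, g r x ∧
      ∑ x ∈ G, g r x ≤ m r ∧ (m r = 0 → G = ∅) := by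
    intro r
    by_cases h0 : m r = 0
    · refine ⟨∅, ∅, ∅, lay_triv _ _ _ _ _, ?_, ?_, ?_, fun _ => rfl⟩
      · simp
      · rw [h0]
        simp
      · rw [h0]
        simp
    · have h1 : 4 * m r ≤ 3 * ∑ x ∈ T.sub r, g r x := (hmq r).resolve_left h0
      obtain ⟨G, P, Q, h2, h3, h4, h5⟩ := hharv n T hΔ (g r) (hg r) (lay_pos1 T pos far b t z) far
        (lay_Z T R t) (lay_card_Z hΔ) (lay_alt hz hAlt) r (m r) (hm0 r) h1
      exact ⟨G, P, Q, h2, h3, h4, h5, fun h => absurd h h0⟩
  choose G P Q hL hcard hlow hupp hemp using hex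
  refine ⟨lay_F T far b t z G, lay_P T far b t z G P, lay_Q T far b t z G Q,
    lay_glue hP hz G P Q (fun r _ => hL r), ?_, ?_, ?_, ?_⟩
  · -- number of boundary vertices
    have hsub : lay_P T far b t z G P ∪ lay_Q T far b t z G Q ⊆
        (W.biUnion fun r => P r ∪ Q r) ∪ univ.image t := by
      intro v hv
      rw [Finset.mem_union, lay_P, lay_Q, Finset.mem_union, Finset.mem_union,
        Finset.mem_filter, Finset.mem_filter, Finset.mem_filter, Finset.mem_filter] at hv
      rw [Finset.mem_union, Finset.mem_biUnion, Finset.mem_image]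
      rcases hv with (⟨_, h⟩ | ⟨_, i, _, h, _⟩) | (⟨_, h⟩ | ⟨_, i, _, h, _⟩)
      · exact Or.inl ⟨_, hτW v, Finset.mem_union_left _ h⟩
      · exact Or.inr ⟨i, Finset.mem_univ _, h.symm⟩
      · exact Or.inl ⟨_, hτW v, Finset.mem_union_right _ h⟩
      · exact Or.inr ⟨i, Finset.mem_univ _, h.symm⟩
    have h1 : (W.biUnion fun r => P r ∪ Q r).card ≤ W.card * (K₂ * (Nat.log 2 n + 1)) :=
      Finset.card_biUnion_le.trans (by
        rw [← smul_eq_mul, ← Finset.sum_const]
        exact Finset.sum_le_sum fun r _ => hcard r)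
    have h2 : ((univ : Finset (Fin 6)).image t).card ≤ 6 :=
      Finset.card_image_le.trans (by simp)
    have h3 : W.card ≤ 6 * Δ + 7 := lay_card_W hΔ
    calc (lay_P T far b t z G P ∪ lay_Q T far b t z G Q).card
        ≤ ((W.biUnion fun r => P r ∪ Q r) ∪ univ.image t).card := Finset.card_le_card hsub
      _ ≤ (W.biUnion fun r => P r ∪ Q r).card + (univ.image t).card := Finset.card_union_le _ _
      _ ≤ (6 * Δ + 7) * (K₂ * (Nat.log 2 n + 1)) + 6 :=
          Nat.add_le_add (h1.trans (Nat.mul_le_mul_right _ h3)) h2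
      _ ≤ ((6 * Δ + 7) * K₂ + 6) * (Nat.log 2 n + 1) := by nlinarith
      _ ≤ _ := Nat.mul_le_mul_right _ (by omega)
  · -- balance
    set B : ℤ := ∑ r ∈ W, ∑ v ∈ G r, g r v with hB
    have hBeq : B = ∑ v, (if v ∈ G (τ v) then σ * q1 v else 0) := by
      rw [← Finset.sum_fiberwise_of_maps_to (s := univ) (t := W) (g := τ) (fun v _ => hτW v), hB]
      apply Finset.sum_congr rfl
      intro r _
      simp only [g]
      rw [← Finset.sum_filter]
      have h1 : ∀ v ∈ univ.filter (fun v => τ v = r), (if v ∈ G (τ v) then σ * q1 v else 0) =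
          (if v ∈ G r then σ * q1 v else 0) := by
        intro v hv
        rw [(Finset.mem_filter.1 hv).2]
      rw [Finset.sum_congr rfl h1, ← Finset.sum_filter]
      congr 1
      ext v
      simp only [Finset.mem_filter, Finset.mem_univ, true_and]
      tauto
    have hsum0 : σ * ∑ v, h v * (if v ∈ lay_F T far b t z G then -1 else 1) =
        σ * ∑ v, q1 v - 2 * B := by
      rw [hBeq, Finset.mul_sum, Finset.mul_sum, Finset.mul_sum, ← Finset.sum_sub_distrib]
      apply Finset.sum_congr rfl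
      intro v _
      have h3 : (v ∈ lay_F T far b t z G) ↔ ¬ (v ∈ F₁ ↔ v ∈ G (τ v)) := by
        rw [lay_F, Finset.mem_filter]
        simp only [Finset.mem_univ, true_and]
        exact Iff.rfl
      simp only [hq1d]
      by_cases ha : v ∈ F₁ <;> by_cases hb : v ∈ G (τ v) <;> simp [h3, ha, hb] <;> ring
    have hsum : σ * ((∑ v, h v * (if v ∈ lay_F T far b t z G then -1 else 1)) - mm) =
        A - 2 * B := by
      rw [mul_sub, hsum0, ← hσA]
      ring
    have habs : |(∑ v, h v * (if v ∈ lay_F T far b t z G then -1 else 1)) - mm| =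
        |A - 2 * B| := by
      rw [← hsum, abs_mul, hσ, one_mul]
    rw [habs]
    have hB1 : B ≤ ∑ r ∈ W, m r := Finset.sum_le_sum fun r _ => hupp r
    have hB2 : ∑ r ∈ W, m r - W.card * K₂ ≤ B := by
      have h1 := Finset.sum_le_sum (fun r (_ : r ∈ W) => hlow r)
      rw [Finset.sum_sub_distrib, Finset.sum_const, nsmul_eq_mul] at h1
      exact h1
    have h3 : (W.card : ℤ) ≤ 6 * Δ + 7 := by exact_mod_cast (lay_card_W hΔ : W.card ≤ 6 * Δ + 7)
    have h4 : (W.card : ℤ) * K₂ ≤ (6 * Δ + 7) * K₂ :=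
      mul_le_mul_of_nonneg_right h3 (Int.natCast_nonneg _)
    have h5 : (0 : ℤ) ≤ (K₁ : ℤ) := Int.natCast_nonneg _
    have h6 : (0 : ℤ) ≤ (6 * (Δ : ℤ) + 7) * K₂ := by positivity
    rw [abs_le]
    push_cast
    constructor
    · linarith
    · linarith
  · -- first mass
    refine (hP.mass j₁).trans ?_
    have hsub : M ∩ (T.item far (b j₁) (t j₁) \
        (univ.filter fun i => i < j₁).biUnion fun i => T.item far (b i) (t i)) ⊆
        M ∩ lay_F T far b t z G := by
      intro v hv
      rw [Finset.mem_inter] at hv ⊢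
      refine ⟨hv.1, ?_⟩
      have h1 : τ v ∈ T.tops far (b j₁) (t j₁) := lay_region hP hz hv.2
      have h2 : v ∈ lay_F1 T far b t z := by
        rw [lay_F1, Finset.mem_filter]
        exact ⟨Finset.mem_univ _, j₁, hj₁, h1⟩
      have h3 : G (τ v) = ∅ := hemp _ (hmj₁ _ h1)
      rw [lay_F, Finset.mem_filter]
      refine ⟨Finset.mem_univ _, fun h4 => ?_⟩
      have h5 : v ∈ G (τ v) := h4.1 h2
      rw [h3] at h5
      exact Finset.notMem_empty _ h5
    exact_mod_cast Finset.card_le_card hsub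
  · -- second mass
    refine (hP.mass j₀).trans ?_
    have hsub : M ∩ (T.item far (b j₀) (t j₀) \
        (univ.filter fun i => i < j₀).biUnion fun i => T.item far (b i) (t i)) ⊆
        M \ lay_F T far b t z G := by
      intro v hv
      rw [Finset.mem_inter] at hv
      rw [Finset.mem_sdiff]
      refine ⟨hv.1, ?_⟩
      have h1 : τ v ∈ T.tops far (b j₀) (t j₀) := lay_region hP hz hv.2
      have h2 : v ∉ lay_F1 T far b t z := by
        rw [lay_F1, Finset.mem_filter]
        rintro ⟨_, i, hi, h2⟩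
        have : i = j₀ := lay_tops_inj hP (by omega : 1 + 1 ≤ R + 2) (lay_tops_ball h2)
          (lay_tops_ball h1)
        rw [this] at hi
        omega
      have h3 : G (τ v) = ∅ := hemp _ (hmj₀ _ h1)
      rw [lay_F, Finset.mem_filter]
      rintro ⟨_, h4⟩
      apply h4
      constructor
      · exact fun h5 => absurd h5 h2
      · intro h5
        have h6 : v ∈ G (τ v) := h5
        rw [h3] at h6
        exact absurd h6 (Finset.notMem_empty _)
    exact_mod_cast Finset.card_le_card hsub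

end

end OT
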